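import Mathlib

/-!
# Brownian helpers: atomless independence, extrema over disjoint intervals, non-injectivity
-/

namespace Pool.Agent.X140

open MeasureTheory ProbabilityTheory Set Filter
open scoped ENNReal NNReal Topology

variable {Ω : Type*} {mΩ : MeasurableSpace Ω} {P : Measure Ω}

/-- If `U, V` are independent and `V` has no atoms then `U ≠ V` a.s. -/
theorem indep_ae_ne [IsFiniteMeasure P] {U V : Ω → ℝ} (hU : AEMeasurable U P)
    (hV : AEMeasurable V P) (h : IndepFun U V P) (hat : ∀ c : ℝ, P {ω | V ω = c} = 0) :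
    P {ω | U ω = V ω} = 0 := by
  have hmap := h.map_prod_eq_prod_map_map hU hV
  have hd : MeasurableSet {z : ℝ × ℝ | z.1 = z.2} := measurableSet_eq_fun measurable_fst measurable_snd
  have h1 : P {ω | U ω = V ω} = P.map (fun ω => (U ω, V ω)) {z : ℝ × ℝ | z.1 = z.2} := by
    rw [Measure.map_apply_of_aemeasurable (hU.prodMk hV) hd]
    rfl
  rw [h1, hmap, Measure.prod_apply hd]
  rw [lintegral_eq_zero_iff' (measurable_measure_prodMk_left hd).aemeasurable]
  refine Eventually.of_forall fun x => ?_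
  have h2 : (Prod.mk x ⁻¹' {z : ℝ × ℝ | z.1 = z.2}) = {x} := by
    ext y
    simp [eq_comm]
  show (P.map V) (Prod.mk x ⁻¹' {z : ℝ × ℝ | z.1 = z.2}) = 0
  rw [h2, Measure.map_apply_of_aemeasurable hV (measurableSet_singleton x)]
  exact hat x

theorem gaussian_null_of_hasLaw {V : Ω → ℝ} {v : ℝ≥0} (hv : v ≠ 0)
    (h : HasLaw V (gaussianReal 0 v) P) (c : ℝ) : P {ω | V ω = c} = 0 := by
  have h1 : P {ω | V ω = c} = P.map V {c} := by
    rw [Measure.map_apply_of_aemeasurable h.aemeasurable (measurableSet_singleton c)]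
    rfl
  rw [h1, h.map_eq]
  have := nullSingletonClass_gaussianReal (μ := 0) hv
  exact measure_singleton c

/-- Clamp to the interval `[p, q]`. -/
noncomputable def clamp (p q r : ℝ≥0) : ℝ≥0 := max p (min q r)

theorem clamp_le {p q : ℝ≥0} (h : p ≤ q) (r : ℝ≥0) : clamp p q r ≤ q := by
  unfold clamp
  exact max_le h (min_le_left _ _)

theorem le_clamp (p q : ℝ≥0) (r : ℝ≥0) : p ≤ clamp p q r := le_max_left _ _

theorem clamp_of_mem {p q r : ℝ≥0} (h1 : p ≤ r) (h2 : r ≤ q) : clamp p q r = r := by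
  unfold clamp
  rw [min_eq_right h2, max_eq_right h1]

theorem continuous_clamp (p q : ℝ≥0) : Continuous (clamp p q) := by
  unfold clamp
  fun_prop

/-- Extremum (maximum for `σ = 1`, minimum for `σ = -1`) of a path over `[p, q]`, computed over a
countable set. -/
noncomputable def ext (σ : ℝ) (p q : ℝ≥0) (b : ℝ≥0 → ℝ) : ℝ :=
  σ * ⨆ n : ℕ, σ * b (clamp p q (TopologicalSpace.denseSeq ℝ≥0 n))

theorem ext_eq {σ : ℝ} (hσ : σ * σ = 1) {p q : ℝ≥0} (hpq : p ≤ q) {b : ℝ≥0 → ℝ}
    (hb : Continuous b) {x : ℝ≥0} (hx1 : p ≤ x) (hx2 : x ≤ q)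
    (hmax : ∀ z, p ≤ z → z ≤ q → σ * b z ≤ σ * b x) : ext σ p q b = b x := by
  unfold ext
  have hle : ∀ n : ℕ, σ * b (clamp p q (TopologicalSpace.denseSeq ℝ≥0 n)) ≤ σ * b x :=
    fun n => hmax _ (le_clamp p q _) (clamp_le hpq _)
  have hbdd : BddAbove (range fun n : ℕ =>
      σ * b (clamp p q (TopologicalSpace.denseSeq ℝ≥0 n))) := ⟨σ * b x, by
    rintro _ ⟨n, rfl⟩
    exact hle n⟩
  have h1 : (⨆ n : ℕ, σ * b (clamp p q (TopologicalSpace.denseSeq ℝ≥0 n))) = σ * b x := by
    refine le_antisymm (ciSup_le hle) ?_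
    by_contra hlt
    push Not at hlt
    set M := ⨆ n : ℕ, σ * b (clamp p q (TopologicalSpace.denseSeq ℝ≥0 n))
    have hopen : IsOpen {y : ℝ≥0 | M < σ * b (clamp p q y)} := by
      have : Continuous fun y => σ * b (clamp p q y) :=
        continuous_const.mul (hb.comp (continuous_clamp p q))
      exact isOpen_lt continuous_const this
    have hne : {y : ℝ≥0 | M < σ * b (clamp p q y)}.Nonempty :=
      ⟨x, by simpa [clamp_of_mem hx1 hx2] using hlt⟩
    obtain ⟨y, hy, ⟨n, rfl⟩⟩ :=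
      (TopologicalSpace.denseRange_denseSeq ℝ≥0).inter_open_nonempty _ hopen hne
    exact absurd (le_ciSup hbdd n) (not_le.mpr hy)
  rw [h1, ← mul_assoc, hσ, one_mul]

/-- The extrema of Brownian motion over two disjoint intervals are a.s. different. -/
theorem ext_ne {B : ℝ≥0 → Ω → ℝ} (hB : IsBrownianReal B P) {p q p' q' : ℝ≥0} (hpq : p ≤ q)
    (hqp : q < p') (hpq' : p' ≤ q') {σ τ : ℝ} (hσ : σ * σ = 1) (hτ : τ * τ = 1) :
    ∀ᵐ ω ∂P, ¬ ∃ x y : ℝ≥0, p ≤ x ∧ x ≤ q ∧ p' ≤ y ∧ y ≤ q' ∧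
      (∀ z, p ≤ z → z ≤ q → σ * B z ω ≤ σ * B x ω) ∧
      (∀ z, p' ≤ z → z ≤ q' → τ * B z ω ≤ τ * B y ω) ∧ B x ω = B y ω := by
  have : IsProbabilityMeasure P := hB.isGaussianProcess.isProbabilityMeasure
  have hm : ∀ t, AEMeasurable (B t) P := fun t => hB.aemeasurable t
  -- the three functionals
  let W : Ω → ℝ := fun ω => ext σ p q (fun t => B t ω) - B q ω
  let Z : Ω → ℝ := fun ω => B p' ω - B q ω
  let U : Ω → ℝ := fun ω => ext σ p q (fun t => B t ω) - B p' ω
  let V : Ω → ℝ := fun ω => ext τ 0 (q' - p') (fun t => B (p' + t) ω - B p' ω)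
  have hext : AEMeasurable (fun ω => ext σ p q (fun t => B t ω)) P := by
    unfold ext
    exact (AEMeasurable.iSup fun n => (hm _).const_mul σ).const_mul σ
  have hWm : AEMeasurable W P := hext.sub (hm q)
  have hZm : AEMeasurable Z P := (hm p').sub (hm q)
  have hUm : AEMeasurable U P := hext.sub (hm p')
  have hVm : AEMeasurable V P := by
    unfold V ext
    exact (AEMeasurable.iSup fun n => ((hm _).sub (hm p')).const_mul τ).const_mul τ
  have hiWZ : IndepFun W Z P := by
    have h := (hB.indepFun_shift q).symm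
    let φ : ((Set.Iic q) → ℝ) → ℝ := fun f =>
      σ * (⨆ n : ℕ, σ * f ⟨clamp p q (TopologicalSpace.denseSeq ℝ≥0 n), clamp_le hpq _⟩)
        - f ⟨q, le_refl q⟩
    let ψ : (ℝ≥0 → ℝ) → ℝ := fun f => f (p' - q)
    have hφ : Measurable φ := by fun_prop
    have hψ : Measurable ψ := measurable_pi_apply _
    have h2 := h.comp hφ hψ
    have e2 : (ψ ∘ fun ω t => B (q + t) ω - B q ω) = Z := by
      funext ω
      simp only [Z, ψ, Function.comp]
      rw [add_tsub_cancel_of_le hqp.le]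
    rw [e2] at h2
    exact h2
  have hZat : ∀ c : ℝ, P {ω | Z ω = c} = 0 := by
    intro c
    have hl := hB.hasLaw_sub p' q
    refine gaussian_null_of_hasLaw ?_ hl c
    intro h0
    have : dist (p' : ℝ) (q : ℝ) = 0 := by
      have h1 := congrArg (fun x : ℝ≥0 => (x : ℝ)) h0
      simpa using h1
    rw [dist_eq_zero] at this
    exact hqp.ne' (NNReal.coe_injective this)
  have hUat : ∀ c : ℝ, P {ω | U ω = c} = 0 := by
    intro c
    have h1 : IndepFun (fun ω => W ω - c) Z P :=
      hiWZ.comp (φ := fun x => x - c) (ψ := id) (by fun_prop) measurable_id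
    have h2 := indep_ae_ne (hWm.sub_const c) hZm h1 hZat
    refine measure_mono_null (fun ω hω => ?_) h2
    simp only [mem_ofPred_eq, U, W, Z] at hω ⊢
    linarith
  have hiUV : IndepFun V U P := by
    have h := (hB.indepFun_shift p')
    let φ : (ℝ≥0 → ℝ) → ℝ := fun f => ext τ 0 (q' - p') f
    let ψ : ((Set.Iic p') → ℝ) → ℝ := fun f =>
      σ * (⨆ n : ℕ, σ * f ⟨clamp p q (TopologicalSpace.denseSeq ℝ≥0 n),
        (clamp_le hpq _).trans hqp.le⟩) - f ⟨p', le_refl p'⟩
    have hψ : Measurable ψ := by fun_prop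
    have hφ : Measurable φ := by
      unfold φ ext
      fun_prop
    exact h.comp hφ hψ
  have hkey := indep_ae_ne hVm hUm hiUV hUat
  have hkey' : ∀ᵐ ω ∂P, V ω ≠ U ω := by
    rw [ae_iff]
    convert hkey using 2
    simp
  filter_upwards [hkey', hB.cont] with ω hω hc
  rintro ⟨x, y, hx1, hx2, hy1, hy2, hmx, hmy, hxy⟩
  apply hω
  have e1 : ext σ p q (fun t => B t ω) = B x ω := ext_eq hσ hpq hc hx1 hx2 hmx
  have hc' : Continuous fun t => B (p' + t) ω - B p' ω := by fun_prop
  have e2 : ext τ 0 (q' - p') (fun t => B (p' + t) ω - B p' ω) =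
      (fun t => B (p' + t) ω - B p' ω) (y - p') := by
    refine ext_eq hτ zero_le hc' zero_le (tsub_le_tsub_right hy2 p') ?_
    intro z _ hz
    have hz' : p' + z ≤ q' := by
      calc p' + z ≤ p' + (q' - p') := by gcongr
        _ = q' := add_tsub_cancel_of_le hpq'
    have h1 := hmy (p' + z) le_self_add hz'
    simp only [add_tsub_cancel_of_le hy1]
    rw [mul_sub, mul_sub]
    linarith
  show ext τ 0 (q' - p') (fun t => B (p' + t) ω - B p' ω) = ext σ p q (fun t => B t ω) - B p' ω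
  rw [e1, e2]
  simp only [add_tsub_cancel_of_le hy1]
  rw [hxy]

/-- The probability that a centred Gaussian is positive is at most `1/2`. -/
theorem gaussian_pos_le (v : ℝ≥0) : gaussianReal 0 v (Ioi 0) ≤ 1 / 2 := by
  have h1 : gaussianReal 0 v (Iio 0) = gaussianReal 0 v (Ioi 0) := by
    have h := gaussianReal_map_neg (μ := 0) (v := v)
    rw [neg_zero] at h
    conv_rhs => rw [← h]
    rw [Measure.map_apply (by fun_prop) measurableSet_Ioi]
    congr 1
    ext x
    simp
  have h2 : gaussianReal 0 v (Iio 0) + gaussianReal 0 v (Ioi 0) ≤ 1 := by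
    rw [← measure_union (by
      rw [Set.disjoint_left]
      intro x hx hx'
      exact absurd (lt_trans (show x < 0 from hx) (show 0 < x from hx')) (lt_irrefl _))
      measurableSet_Ioi]
    exact prob_le_one
  rw [h1, ← two_mul] at h2
  rw [ENNReal.le_div_iff_mul_le (by simp) (by simp), mul_comm]
  exact h2

theorem gaussian_neg_le (v : ℝ≥0) : gaussianReal 0 v (Iio 0) ≤ 1 / 2 := by
  have h1 : gaussianReal 0 v (Iio 0) = gaussianReal 0 v (Ioi 0) := by
    have h := gaussianReal_map_neg (μ := 0) (v := v)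
    rw [neg_zero] at h
    conv_rhs => rw [← h]
    rw [Measure.map_apply (by fun_prop) measurableSet_Ioi]
    congr 1
    ext x
    simp
  rw [h1]
  exact gaussian_pos_le v

/-- Brownian motion is a.s. not injective on `[0, L]`. -/
theorem not_injOn {B : ℝ≥0 → Ω → ℝ} (hB : IsBrownianReal B P) {L : ℝ≥0} (hL : 0 < L) :
    ∀ᵐ ω ∂P, ∃ x y : ℝ≥0, x < y ∧ y ≤ L ∧ B x ω = B y ω := by
  have : IsProbabilityMeasure P := hB.isGaussianProcess.isProbabilityMeasure
  let t : ℕ → ℕ → ℝ≥0 := fun n k => (k : ℝ≥0) * (L / n)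
  have htm : ∀ n, Monotone (t n) := fun n a b hab => by
    simp only [t]
    gcongr
  let A : Set ℝ → ℕ → Set Ω := fun s n => ⋂ k ∈ Finset.range n,
    (fun ω => B (t n (k + 1)) ω - B (t n k) ω) ⁻¹' s
  have hA : ∀ s : Set ℝ, MeasurableSet s → (∀ v, gaussianReal 0 v s ≤ 1 / 2) → ∀ n,
      P (A s n) ≤ (1 / 2) ^ n := by
    intro s hs hv n
    have hind : iIndepFun (fun k ω => B (t n (k + 1)) ω - B (t n k) ω) P :=
      hB.hasIndepIncrements.nat (htm n)
    have h1 := hind.measure_inter_preimage_eq_mul (Finset.range n)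
      (sets := fun _ => s) (fun i _ => hs)
    show P (⋂ k ∈ Finset.range n, (fun ω => B (t n (k + 1)) ω - B (t n k) ω) ⁻¹' s) ≤ _
    rw [h1]
    calc ∏ i ∈ Finset.range n, P ((fun ω => B (t n (i + 1)) ω - B (t n i) ω) ⁻¹' s)
        ≤ ∏ i ∈ Finset.range n, (1 / 2 : ℝ≥0∞) := by
          refine Finset.prod_le_prod' fun i _ => ?_
          have hl := hB.hasLaw_sub (t n (i + 1)) (t n i)
          have : P ((fun ω => B (t n (i + 1)) ω - B (t n i) ω) ⁻¹' s)
              = P.map (B (t n (i + 1)) - B (t n i)) s := by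
            rw [Measure.map_apply_of_aemeasurable hl.aemeasurable hs]
            rfl
          rw [this, hl.map_eq]
          exact hv _
      _ = (1 / 2) ^ n := by simp
  have hnull : P {ω | ∀ n, 0 < n → ω ∈ A (Ioi 0) n ∪ A (Iio 0) n} = 0 := by
    have hb : ∀ n : ℕ, 0 < n → P {ω | ∀ n, 0 < n → ω ∈ A (Ioi 0) n ∪ A (Iio 0) n}
        ≤ (1 / 2) ^ n + (1 / 2) ^ n := by
      intro n hn
      calc P {ω | ∀ n, 0 < n → ω ∈ A (Ioi 0) n ∪ A (Iio 0) n}
          ≤ P (A (Ioi 0) n ∪ A (Iio 0) n) := measure_mono fun ω hω => hω n hn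
        _ ≤ P (A (Ioi 0) n) + P (A (Iio 0) n) := measure_union_le _ _
        _ ≤ _ := add_le_add (hA _ measurableSet_Ioi gaussian_pos_le n)
            (hA _ measurableSet_Iio gaussian_neg_le n)
    have hlim : Tendsto (fun n : ℕ => ((1 / 2 : ℝ≥0∞)) ^ n + (1 / 2) ^ n) atTop (𝓝 0) := by
      have h := ENNReal.tendsto_pow_atTop_nhds_zero_of_lt_one
        (show (1 / 2 : ℝ≥0∞) < 1 by
          rw [one_div]
          exact ENNReal.inv_lt_one.mpr (by norm_num))
      simpa using h.add h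
    refine le_antisymm (ge_of_tendsto hlim ?_) zero_le
    filter_upwards [eventually_gt_atTop 0] with n hn using hb n hn
  have hae : ∀ᵐ ω ∂P, ¬ (∀ n, 0 < n → ω ∈ A (Ioi 0) n ∪ A (Iio 0) n) := by
    rw [ae_iff]
    simp only [not_not]
    exact hnull
  filter_upwards [hae, hB.cont] with ω hω hc
  by_contra hcon
  push Not at hcon
  apply hω
  intro n hn
  have hinj : InjOn (fun x => B x ω) (Icc 0 L) := by
    intro x hx y hy hxy
    rcases lt_trichotomy x y with h | h | h
    · exact absurd hxy (hcon x y h hy.2)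
    · exact h
    · exact absurd hxy.symm (hcon y x h hx.2)
  have hmono := ContinuousOn.strictMonoOn_of_injOn_Icc' (zero_le : (0 : ℝ≥0) ≤ L)
    (hc.continuousOn) hinj
  have htL : ∀ k, k ≤ n → t n k ≤ L := by
    intro k hk
    simp only [t]
    have hn' : (n : ℝ≥0) ≠ 0 := by exact_mod_cast hn.ne'
    calc (k : ℝ≥0) * (L / n) ≤ (n : ℝ≥0) * (L / n) := by gcongr
      _ = L := by field_simp
  have hlt : ∀ k, t n k < t n (k + 1) := by
    intro k
    simp only [t]
    have : 0 < L / n := div_pos hL (by exact_mod_cast hn)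
    push_cast
    rw [add_mul, one_mul]
    exact lt_add_of_pos_right _ this
  rcases hmono with h | h
  · left
    simp only [A, mem_iInter]
    intro k hk
    have hk' := Finset.mem_range.mp hk
    have := h ⟨zero_le, htL k hk'.le⟩ ⟨zero_le, htL (k + 1) hk'⟩ (hlt k)
    simp only [mem_preimage, mem_Ioi]
    linarith
  · right
    simp only [A, mem_iInter]
    intro k hk
    have hk' := Finset.mem_range.mp hk
    have := h ⟨zero_le, htL k hk'.le⟩ ⟨zero_le, htL (k + 1) hk'⟩ (hlt k)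
    simp only [mem_preimage, mem_Iio]
    linarith

end Pool.Agent.X140
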