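import Mathlib

/-!
# A strictly increasing continuous function which is very flat on most of `[0,1]` at all scales
-/

namespace Pool.Agent.X140.Flat

open Filter Topology Set

/-- Approximations of the Cantor function with digits `0, 15` in base `16`. -/
noncomputable def ca : ℕ → ℝ → ℝ
  | 0, t => max 0 (min 1 t)
  | j + 1, t => (ca j (16 * t) + ca j (16 * t - 15)) / 2

theorem ca_mono (j : ℕ) : Monotone (ca j) := by
  induction j with
  | zero =>
    intro s t h
    exact max_le_max le_rfl (min_le_min le_rfl h)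
  | succ j ih =>
    intro s t h
    have h1 := ih (show 16 * s ≤ 16 * t by linarith)
    have h2 := ih (show 16 * s - 15 ≤ 16 * t - 15 by linarith)
    simp only [ca]
    linarith

theorem ca_cont (j : ℕ) : Continuous (ca j) := by
  induction j with
  | zero =>
    show Continuous fun t : ℝ => max 0 (min 1 t)
    fun_prop
  | succ j ih =>
    show Continuous fun t : ℝ => (ca j (16 * t) + ca j (16 * t - 15)) / 2
    fun_prop

theorem ca_zero (j : ℕ) : ∀ {t : ℝ}, t ≤ 0 → ca j t = 0 := by
  induction j with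
  | zero =>
    intro t h
    show max 0 (min 1 t) = 0
    rw [max_eq_left]
    exact (min_le_right _ _).trans h
  | succ j ih =>
    intro t h
    simp only [ca]
    rw [ih (by linarith), ih (by linarith)]
    norm_num

theorem ca_one (j : ℕ) : ∀ {t : ℝ}, 1 ≤ t → ca j t = 1 := by
  induction j with
  | zero =>
    intro t h
    show max 0 (min 1 t) = 1
    rw [min_eq_left h]
    norm_num
  | succ j ih =>
    intro t h
    simp only [ca]
    rw [ih (by linarith), ih (by linarith)]
    norm_num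

theorem ca_nonneg (j : ℕ) (t : ℝ) : 0 ≤ ca j t := by
  rcases le_total t 0 with h | h
  · rw [ca_zero j h]
  · rw [← ca_zero j le_rfl]; exact ca_mono j h

theorem ca_le_one (j : ℕ) (t : ℝ) : ca j t ≤ 1 := by
  rcases le_total 1 t with h | h
  · rw [ca_one j h]
  · rw [← ca_one j le_rfl]; exact ca_mono j h

theorem ca_dist (j : ℕ) : ∀ t : ℝ, dist (ca j t) (ca (j + 1) t) ≤ 1 * (1 / 2) ^ j := by
  induction j with
  | zero =>
    intro t
    rw [Real.dist_eq, pow_zero, mul_one, abs_le]
    have h1 := ca_nonneg 0 t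
    have h2 := ca_nonneg 1 t
    have h3 := ca_le_one 0 t
    have h4 := ca_le_one 1 t
    simp only [zero_add]
    constructor <;> linarith
  | succ j ih =>
    intro t
    have e : ca (j + 1) t - ca (j + 1 + 1) t =
        ((ca j (16 * t) - ca (j + 1) (16 * t)) +
          (ca j (16 * t - 15) - ca (j + 1) (16 * t - 15))) / 2 := by
      rw [show ca (j + 1 + 1) t = (ca (j + 1) (16 * t) + ca (j + 1) (16 * t - 15)) / 2 from rfl,
        show ca (j + 1) t = (ca j (16 * t) + ca j (16 * t - 15)) / 2 from rfl]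
      ring
    rw [Real.dist_eq, e, pow_succ]
    rcases le_total 1 (16 * t) with h | h
    · rw [ca_one j h, ca_one (j + 1) h, sub_self, zero_add, abs_div, abs_two]
      have := ih (16 * t - 15)
      rw [Real.dist_eq] at this
      linarith
    · rw [ca_zero j (show 16 * t - 15 ≤ 0 by linarith),
        ca_zero (j + 1) (show 16 * t - 15 ≤ 0 by linarith), sub_self, add_zero, abs_div, abs_two]
      have := ih (16 * t)
      rw [Real.dist_eq] at this
      linarith

theorem ca_tendsto (t : ℝ) : ∃ l, Tendsto (fun j => ca j t) atTop (𝓝 l) :=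
  cauchySeq_tendsto_of_complete
    (cauchySeq_of_le_geometric (1 / 2) 1 (by norm_num) fun j => ca_dist j t)

/-- The Cantor function. -/
noncomputable def cf (t : ℝ) : ℝ := (ca_tendsto t).choose

theorem cf_spec (t : ℝ) : Tendsto (fun j => ca j t) atTop (𝓝 (cf t)) := (ca_tendsto t).choose_spec

theorem cf_unif : TendstoUniformly ca cf atTop := by
  rw [Metric.tendstoUniformly_iff]
  intro ε hε
  have h1 : Tendsto (fun n : ℕ => 1 * (1 / 2 : ℝ) ^ n / (1 - 1 / 2)) atTop (𝓝 0) := by
    have := (tendsto_pow_atTop_nhds_zero_of_lt_one (r := (1 / 2 : ℝ)) (by norm_num)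
      (by norm_num)).const_mul 2
    rw [mul_zero] at this
    refine this.congr fun n => ?_
    ring
  filter_upwards [(tendsto_order.1 h1).2 ε hε] with n hn t
  rw [dist_comm]
  exact (dist_le_of_le_geometric_of_tendsto (1 / 2) 1 (by norm_num) (fun j => ca_dist j t)
    (cf_spec t) n).trans_lt hn

theorem cf_cont : Continuous cf :=
  cf_unif.continuous (Frequently.of_forall ca_cont)

theorem cf_mono : Monotone cf := fun s t h =>
  le_of_tendsto_of_tendsto' (cf_spec s) (cf_spec t) fun j => ca_mono j h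

theorem cf_zero {t : ℝ} (h : t ≤ 0) : cf t = 0 :=
  tendsto_nhds_unique (cf_spec t) (by simp only [ca_zero _ h]; exact tendsto_const_nhds)

theorem cf_one {t : ℝ} (h : 1 ≤ t) : cf t = 1 :=
  tendsto_nhds_unique (cf_spec t) (by simp only [ca_one _ h]; exact tendsto_const_nhds)

theorem cf_nonneg (t : ℝ) : 0 ≤ cf t := by
  rcases le_total t 0 with h | h
  · rw [cf_zero h]
  · rw [← cf_zero le_rfl]; exact cf_mono h

theorem cf_le_one (t : ℝ) : cf t ≤ 1 := by
  rcases le_total 1 t with h | h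
  · rw [cf_one h]
  · rw [← cf_one le_rfl]; exact cf_mono h

theorem cf_eq (t : ℝ) : cf t = (cf (16 * t) + cf (16 * t - 15)) / 2 := by
  have h1 : Tendsto (fun j => ca (j + 1) t) atTop (𝓝 (cf t)) :=
    (cf_spec t).comp (tendsto_add_atTop_nat 1)
  have h2 : Tendsto (fun j => ca (j + 1) t) atTop (𝓝 ((cf (16 * t) + cf (16 * t - 15)) / 2)) :=
    ((cf_spec (16 * t)).add (cf_spec (16 * t - 15))).div_const 2
  exact tendsto_nhds_unique h1 h2

/-- `t` lies in the `i`-th middle piece of level `m`. -/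
def Mid (m : ℕ) (i : ℤ) (t : ℝ) : Prop :=
  (i : ℝ) + 1 / 16 ≤ 16 ^ m * t ∧ 16 ^ m * t ≤ (i : ℝ) + 15 / 16

theorem cf_const (m : ℕ) : ∀ (i : ℤ) {s t : ℝ}, Mid m i s → Mid m i t → cf s = cf t := by
  induction m with
  | zero =>
    intro i s t hs ht
    simp only [Mid, pow_zero, one_mul] at hs ht
    rcases lt_trichotomy i 0 with hi | hi | hi
    · have h1 : (i : ℝ) ≤ -1 := by exact_mod_cast (by omega : i ≤ -1)
      rw [cf_zero (by linarith), cf_zero (by linarith)]
    · subst hi
      simp only [Int.cast_zero, zero_add] at hs ht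
      rw [cf_eq s, cf_eq t, cf_one (t := 16 * s) (by linarith), cf_one (t := 16 * t) (by linarith),
        cf_zero (t := 16 * s - 15) (by linarith), cf_zero (t := 16 * t - 15) (by linarith)]
    · have h1 : (1 : ℝ) ≤ i := by exact_mod_cast (by omega : 1 ≤ i)
      rw [cf_one (by linarith), cf_one (by linarith)]
  | succ m ih =>
    intro i s t hs ht
    have e : ∀ u : ℝ, (16 : ℝ) ^ (m + 1) * u = 16 ^ m * (16 * u) := by intro u; rw [pow_succ]; ring
    simp only [Mid, e] at hs ht
    have h1 := ih i (s := 16 * s) (t := 16 * t) hs ht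
    have h2 := ih (i - 15 * 16 ^ m) (s := 16 * s - 15) (t := 16 * t - 15)
      (by
        constructor
        · push_cast; rw [mul_sub]; linarith [hs.1]
        · push_cast; rw [mul_sub]; linarith [hs.2])
      (by
        constructor
        · push_cast; rw [mul_sub]; linarith [ht.1]
        · push_cast; rw [mul_sub]; linarith [ht.2])
    rw [cf_eq s, cf_eq t, h1, h2]

/-- Scaled copies. -/
noncomputable def F (n : ℕ) (t : ℝ) : ℝ :=
  (1 / 16 : ℝ) ^ n * ∑ l ∈ Finset.range (16 ^ n), cf (16 ^ n * t - l)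

theorem F_cont (n : ℕ) : Continuous (F n) := by
  unfold F
  refine continuous_const.mul (continuous_finsetSum _ fun l _ => ?_)
  exact cf_cont.comp (by fun_prop)

theorem F_mono (n : ℕ) : Monotone (F n) := by
  intro s t h
  unfold F
  refine mul_le_mul_of_nonneg_left (Finset.sum_le_sum fun l _ => cf_mono ?_) (by positivity)
  have : (0 : ℝ) < 16 ^ n := by positivity
  nlinarith

theorem F_nonneg (n : ℕ) (t : ℝ) : 0 ≤ F n t :=
  mul_nonneg (by positivity) (Finset.sum_nonneg fun l _ => cf_nonneg _)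

theorem F_le_one (n : ℕ) (t : ℝ) : F n t ≤ 1 := by
  unfold F
  have h : ∑ l ∈ Finset.range (16 ^ n), cf (16 ^ n * t - l) ≤
      ∑ _l ∈ Finset.range (16 ^ n), (1 : ℝ) := Finset.sum_le_sum fun l _ => cf_le_one _
  rw [Finset.sum_const, Finset.card_range, nsmul_eq_mul, mul_one] at h
  push_cast at h
  calc (1 / 16 : ℝ) ^ n * ∑ l ∈ Finset.range (16 ^ n), cf (16 ^ n * t - l)
      ≤ (1 / 16 : ℝ) ^ n * 16 ^ n := mul_le_mul_of_nonneg_left h (by positivity)
    _ = 1 := by rw [← mul_pow]; norm_num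

theorem F_const {n m : ℕ} (hnm : n ≤ m) {i : ℤ} {s t : ℝ} (hs : Mid m i s) (ht : Mid m i t) :
    F n s = F n t := by
  unfold F
  congr 1
  refine Finset.sum_congr rfl fun l _ => ?_
  have e : ∀ u : ℝ, (16 : ℝ) ^ (m - n) * (16 ^ n * u - l) = 16 ^ m * u - 16 ^ (m - n) * l := by
    intro u
    rw [mul_sub, ← mul_assoc, ← pow_add, Nat.sub_add_cancel hnm]
  apply cf_const (m - n) (i - 16 ^ (m - n) * l)
  · simp only [Mid, e]
    push_cast
    exact ⟨by linarith [hs.1], by linarith [hs.2]⟩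
  · simp only [Mid, e]
    push_cast
    exact ⟨by linarith [ht.1], by linarith [ht.2]⟩

theorem F_lt {n : ℕ} {s t : ℝ} (hs : 0 ≤ s) (ht : t ≤ 1) (h : 2 * (1 / 16 : ℝ) ^ n < t - s) :
    F n s < F n t := by
  have hp : (0 : ℝ) < 16 ^ n := by positivity
  have hpe : (1 / 16 : ℝ) ^ n * 16 ^ n = 1 := by rw [← mul_pow]; norm_num
  set l : ℕ := ⌈(16 : ℝ) ^ n * s⌉₊ with hl
  have h1 : (16 : ℝ) ^ n * s ≤ l := Nat.le_ceil _
  have h2 : (l : ℝ) < 16 ^ n * s + 1 := Nat.ceil_lt_add_one (by positivity)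
  have h3 : 2 < 16 ^ n * t - 16 ^ n * s := by
    have := mul_lt_mul_of_pos_right h hp
    nlinarith
  have h4 : (l : ℝ) + 1 ≤ 16 ^ n * t := by linarith
  have h5 : l < 16 ^ n := by
    have : (l : ℝ) < 16 ^ n := by nlinarith
    exact_mod_cast this
  unfold F
  refine mul_lt_mul_of_pos_left ?_ (by positivity)
  refine Finset.sum_lt_sum (fun k _ => cf_mono (by nlinarith)) ⟨l, Finset.mem_range.mpr h5, ?_⟩
  rw [cf_zero (by linarith), cf_one (by linarith)]
  exact one_pos

/-- The weights. -/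
noncomputable def wt (h : ℕ → ℝ) (n : ℕ) : ℝ := (1 / 2) ^ (n + 2) * ∏ k ∈ Finset.range n, h k

theorem wt_pos {h : ℕ → ℝ} (hp : ∀ n, 0 < h n) (n : ℕ) : 0 < wt h n :=
  mul_pos (by positivity) (Finset.prod_pos fun k _ => hp k)

theorem wt_le {h : ℕ → ℝ} (hp : ∀ n, 0 < h n) (h1 : ∀ n, h n ≤ 1) (n : ℕ) :
    wt h n ≤ (1 / 2) ^ (n + 2) := by
  unfold wt
  have : ∏ k ∈ Finset.range n, h k ≤ 1 :=
    Finset.prod_le_one (fun k _ => (hp k).le) fun k _ => h1 k
  exact mul_le_of_le_one_right (by positivity) this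

theorem wt_le' {h : ℕ → ℝ} (hp : ∀ n, 0 < h n) (h1 : ∀ n, h n ≤ 1) {m n : ℕ} (hmn : m < n) :
    wt h n ≤ (1 / 2) ^ (n + 2) * h m := by
  unfold wt
  refine mul_le_mul_of_nonneg_left ?_ (by positivity)
  rw [← Finset.mul_prod_erase _ _ (Finset.mem_range.mpr hmn)]
  exact mul_le_of_le_one_right (hp m).le
    (Finset.prod_le_one (fun k _ => (hp k).le) fun k _ => h1 k)

theorem sum_geo : Summable fun n : ℕ => (1 / 2 : ℝ) ^ (n + 2) := by
  simp_rw [pow_add]
  exact (summable_geometric_of_lt_one (by norm_num) (by norm_num)).mul_right _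

theorem tsum_geo : ∑' n : ℕ, (1 / 2 : ℝ) ^ (n + 2) = 1 / 2 := by
  simp_rw [pow_add]
  rw [tsum_mul_right, tsum_geometric_of_lt_one (by norm_num) (by norm_num)]
  norm_num

/-- The function `V`. -/
noncomputable def V (h : ℕ → ℝ) (t : ℝ) : ℝ := ∑' n, wt h n * F n t

section V

variable {h : ℕ → ℝ} (hp : ∀ n, 0 < h n) (h1 : ∀ n, h n ≤ 1)

include hp h1

theorem term_nonneg (n : ℕ) (t : ℝ) : 0 ≤ wt h n * F n t :=
  mul_nonneg (wt_pos hp n).le (F_nonneg n t)

theorem term_le (n : ℕ) (t : ℝ) : wt h n * F n t ≤ (1 / 2) ^ (n + 2) :=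
  (mul_le_of_le_one_right (wt_pos hp n).le (F_le_one n t)).trans (wt_le hp h1 n)

theorem V_summable (t : ℝ) : Summable fun n => wt h n * F n t :=
  Summable.of_nonneg_of_le (fun n => term_nonneg hp h1 n t) (fun n => term_le hp h1 n t) sum_geo

theorem V_cont : Continuous (V h) := by
  unfold V
  refine continuous_tsum (fun n => continuous_const.mul (F_cont n)) sum_geo fun n t => ?_
  rw [Real.norm_of_nonneg (term_nonneg hp h1 n t)]
  exact term_le hp h1 n t

theorem V_nonneg (t : ℝ) : 0 ≤ V h t := tsum_nonneg fun n => term_nonneg hp h1 n t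

theorem V_le (t : ℝ) : V h t ≤ 1 / 2 := by
  rw [← tsum_geo]
  exact (V_summable hp h1 t).tsum_le_tsum (fun n => term_le hp h1 n t) sum_geo

theorem V_strict : StrictMonoOn (V h) (Icc 0 1) := by
  intro s hs t ht hst
  obtain ⟨n, hn⟩ : ∃ n : ℕ, 2 * (1 / 16 : ℝ) ^ n < t - s := by
    have h2 : Tendsto (fun n : ℕ => 2 * (1 / 16 : ℝ) ^ n) atTop (𝓝 0) := by
      have := (tendsto_pow_atTop_nhds_zero_of_lt_one (r := (1 / 16 : ℝ)) (by norm_num)
        (by norm_num)).const_mul 2
      rwa [mul_zero] at this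
    exact ((tendsto_order.1 h2).2 (t - s) (by linarith)).exists
  unfold V
  refine (V_summable hp h1 s).tsum_lt_tsum (i := n)
    (fun k => mul_le_mul_of_nonneg_left (F_mono k hst.le) (wt_pos hp k).le) ?_
    (V_summable hp h1 t)
  exact mul_lt_mul_of_pos_left (F_lt hs.1 ht.2 hn) (wt_pos hp n)

theorem V_flat (m : ℕ) (i : ℤ) {s t : ℝ} (hs : Mid m i s) (ht : Mid m i t) :
    |V h s - V h t| ≤ h m / 2 := by
  unfold V
  rw [← (V_summable hp h1 s).tsum_sub (V_summable hp h1 t)]
  have hb : ∀ n, ‖wt h n * F n s - wt h n * F n t‖ ≤ (1 / 2) ^ (n + 2) * h m := by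
    intro n
    rw [← mul_sub, Real.norm_eq_abs, abs_mul, abs_of_pos (wt_pos hp n)]
    rcases le_or_gt n m with hnm | hnm
    · rw [F_const hnm hs ht, sub_self, abs_zero, mul_zero]
      have := hp m
      positivity
    · have hF : |F n s - F n t| ≤ 1 := by
        rw [abs_le]
        have a1 := F_nonneg n s
        have a2 := F_nonneg n t
        have a3 := F_le_one n s
        have a4 := F_le_one n t
        constructor <;> linarith
      exact (mul_le_of_le_one_right (wt_pos hp n).le hF).trans (wt_le' hp h1 hnm)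
  have hsum : Summable fun n : ℕ => (1 / 2 : ℝ) ^ (n + 2) * h m := sum_geo.mul_right _
  have := tsum_of_norm_bounded hsum.hasSum hb
  rw [tsum_mul_right, tsum_geo, Real.norm_eq_abs] at this
  linarith

end V

end Pool.Agent.X140.Flat
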