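import Mathlib

/-!
# The extension property of almost every graph
-/

namespace Pool.Agent.X140.ExtProp

open Finset Filter Topology

variable {V : Type} [Fintype V] [DecidableEq V] {m : ℕ}

/-- The vertices outside the tuple. -/
abbrev Out (t : Fin m → V) : Type := {w : V // w ∉ Set.range t}

open Classical in
/-- Adjacency patterns of the outside vertices. -/
noncomputable def pat (t : Fin m → V) (G : SimpleGraph V) : Out t → Fin m → Bool :=
  fun w i => decide (G.Adj w.1 (t i))

/-- The graph consisting of the edges prescribed by a pattern. -/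
def patGraph (t : Fin m → V) (p : Out t → Fin m → Bool) : SimpleGraph V :=
  SimpleGraph.fromRel (fun a b => ∃ (h : a ∉ Set.range t) (i : Fin m), b = t i ∧ p ⟨a, h⟩ i = true)

theorem patGraph_adj {t : Fin m → V} (ht : Function.Injective t) (p : Out t → Fin m → Bool)
    (w : Out t) (i : Fin m) : (patGraph t p).Adj w.1 (t i) ↔ p w i = true := by
  unfold patGraph
  rw [SimpleGraph.fromRel_adj]
  constructor
  · rintro ⟨_, h | h⟩
    · obtain ⟨_, j, hj, hp⟩ := h
      rw [ht hj]
      exact hp
    · obtain ⟨h, _⟩ := h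
      exact absurd ⟨i, rfl⟩ h
  · intro h
    refine ⟨fun h0 => w.2 ⟨i, h0.symm⟩, Or.inl ⟨w.2, i, rfl, h⟩⟩

theorem pat_symmDiff {t : Fin m → V} (ht : Function.Injective t) (p : Out t → Fin m → Bool)
    (G : SimpleGraph V) (w : Out t) (i : Fin m) :
    pat t (symmDiff G (patGraph t p)) w i = xor (pat t G w i) (p w i) := by
  classical
  unfold pat
  have h := patGraph_adj ht p w i
  have h2 : (symmDiff G (patGraph t p)).Adj w.1 (t i) ↔
      ((G.Adj w.1 (t i) ∧ ¬ (patGraph t p).Adj w.1 (t i)) ∨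
        ((patGraph t p).Adj w.1 (t i) ∧ ¬ G.Adj w.1 (t i))) := by
    rw [symmDiff_def]
    rfl
  rw [h] at h2
  by_cases h3 : G.Adj w.1 (t i) <;> cases h4 : p w i <;> simp [h2, h3, h4]

theorem card_fiber {t : Fin m → V} (ht : Function.Injective t) (p : Out t → Fin m → Bool) :
    Nat.card {G : SimpleGraph V // pat t G = p} =
      Nat.card {G : SimpleGraph V // pat t G = fun _ _ => false} := by
  classical
  refine Nat.card_congr ?_
  refine ⟨fun G => ⟨symmDiff G.1 (patGraph t p), ?_⟩, fun G => ⟨symmDiff G.1 (patGraph t p), ?_⟩,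
    fun G => ?_, fun G => ?_⟩
  · funext w i
    rw [pat_symmDiff ht, G.2]
    simp
  · funext w i
    rw [pat_symmDiff ht, G.2]
    simp
  · apply Subtype.ext
    simp [symmDiff_symmDiff_cancel_right]
  · apply Subtype.ext
    simp [symmDiff_symmDiff_cancel_right]

theorem card_pred {t : Fin m → V} (ht : Function.Injective t)
    (A : (Out t → Fin m → Bool) → Prop) :
    Nat.card {G : SimpleGraph V // A (pat t G)} =
      Nat.card {p : Out t → Fin m → Bool // A p} *
        Nat.card {G : SimpleGraph V // pat t G = fun _ _ => false} := by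
  classical
  have e : {G : SimpleGraph V // A (pat t G)} ≃
      Σ p : {p : Out t → Fin m → Bool // A p}, {G : SimpleGraph V // pat t G = p.1} :=
    { toFun := fun G => ⟨⟨pat t G.1, G.2⟩, ⟨G.1, rfl⟩⟩
      invFun := fun x => ⟨x.2.1, by rw [x.2.2]; exact x.1.2⟩
      left_inv := fun G => rfl
      right_inv := by
        rintro ⟨⟨p, hp⟩, ⟨G, hG⟩⟩
        cases hG
        rfl }
  rw [Nat.card_congr e, Nat.card_sigma]
  simp_rw [card_fiber ht]
  rw [Finset.sum_const, Finset.card_univ, smul_eq_mul]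
  simp only [Nat.card_eq_fintype_card]

/-- The proportion of graphs for which no outside vertex has the pattern `q`. -/
theorem bad_count {t : Fin m → V} (ht : Function.Injective t) (q : Fin m → Bool) :
    (Nat.card {G : SimpleGraph V // ∀ w : Out t, ¬ (∀ i, pat t G w i = q i)} : ℝ) =
      ((2 ^ m - 1 : ℝ) / 2 ^ m) ^ (Fintype.card V - m) * Nat.card (SimpleGraph V) := by
  classical
  have hcard : Fintype.card (Out t) = Fintype.card V - m := by
    rw [Fintype.card_subtype_compl]
    congr 1
    rw [← Set.toFinset_card, Set.toFinset_range, Finset.card_image_of_injective _ ht]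
    simp
  have h1 := card_pred ht (fun p => ∀ w : Out t, ¬ (∀ i, p w i = q i))
  have h2 := card_pred ht (fun _ => True)
  have h3 : Nat.card {p : Out t → Fin m → Bool // ∀ w : Out t, ¬ (∀ i, p w i = q i)}
      = (2 ^ m - 1) ^ (Fintype.card V - m) := by
    have e : {p : Out t → Fin m → Bool // ∀ w : Out t, ¬ (∀ i, p w i = q i)} ≃
        (Out t → {r : Fin m → Bool // r ≠ q}) :=
      { toFun := fun p w => ⟨p.1 w, fun h => p.2 w (fun i => by rw [h])⟩
        invFun := fun f => ⟨fun w => (f w).1, fun w h => (f w).2 (funext h)⟩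
        left_inv := fun p => rfl
        right_inv := fun f => rfl }
    rw [Nat.card_congr e, Nat.card_eq_fintype_card, Fintype.card_fun, hcard]
    congr 1
    rw [Fintype.card_subtype_compl]
    simp
  have h4 : Nat.card {p : Out t → Fin m → Bool // True} = (2 ^ m) ^ (Fintype.card V - m) := by
    rw [Nat.card_congr (Equiv.subtypeUnivEquiv (fun _ => trivial)), Nat.card_eq_fintype_card,
      Fintype.card_fun, hcard]
    congr 1
    simp
  have h5 : Nat.card {G : SimpleGraph V // True} = Nat.card (SimpleGraph V) :=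
    Nat.card_congr (Equiv.subtypeUnivEquiv (fun _ => trivial))
  rw [h3] at h1
  rw [h4, h5] at h2
  rw [h1, h2]
  push_cast
  rw [Nat.cast_sub (Nat.one_le_two_pow)]
  push_cast
  rw [div_pow]
  field_simp

/-- The extension property for triples. -/
def Ext3 {V : Type} (G : SimpleGraph V) : Prop :=
  ∀ x y z : V, x ≠ y → x ≠ z → y ≠ z → ∀ a b c : Bool, ∃ w : V, w ≠ x ∧ w ≠ y ∧ w ≠ z ∧
    (G.Adj w x ↔ a = true) ∧ (G.Adj w y ↔ b = true) ∧ (G.Adj w z ↔ c = true)

theorem not_ext3_subset (G : SimpleGraph V) (h : ¬ Ext3 G) :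
    ∃ (t : Fin 3 → V) (q : Fin 3 → Bool), Function.Injective t ∧
      ∀ w : Out t, ¬ (∀ i, pat t G w i = q i) := by
  classical
  simp only [Ext3, not_forall] at h
  obtain ⟨x, y, z, hxy, hxz, hyz, a, b, c, h⟩ := h
  refine ⟨![x, y, z], ![a, b, c], ?_, ?_⟩
  · intro i j hij
    fin_cases i <;> fin_cases j <;> simp_all
  · intro w hw
    have h0 := hw 0
    have h1 := hw 1
    have h2 := hw 2
    simp only [pat, Matrix.cons_val_zero, Matrix.cons_val_one, Matrix.cons_val] at h0 h1 h2
    have hne : ∀ i, w.1 ≠ ![x, y, z] i := fun i hi => w.2 ⟨i, hi.symm⟩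
    refine h ⟨w.1, hne 0, hne 1, hne 2, ?_, ?_, ?_⟩
    · rw [← h0]; simp
    · rw [← h1]; simp
    · rw [← h2]; simp

theorem bad_le (n : ℕ) :
    (Nat.card {G : SimpleGraph (Fin n) // ¬ Ext3 G} : ℝ) ≤
      ((n : ℝ) ^ 3 * 8 * ((7 : ℝ) / 8) ^ (n - 3)) * Nat.card (SimpleGraph (Fin n)) := by
  classical
  have hsub : (Finset.univ.filter fun G : SimpleGraph (Fin n) => ¬ Ext3 G) ⊆
      (Finset.univ.filter fun tq : (Fin 3 → Fin n) × (Fin 3 → Bool) =>
        Function.Injective tq.1).biUnion
        (fun tq => Finset.univ.filter fun G : SimpleGraph (Fin n) =>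
          ∀ w : Out tq.1, ¬ (∀ i, pat tq.1 G w i = tq.2 i)) := by
    intro G hG
    rw [Finset.mem_filter] at hG
    obtain ⟨t, q, ht, h⟩ := not_ext3_subset G hG.2
    rw [Finset.mem_biUnion]
    exact ⟨(t, q), by simp [ht], by simp only [Finset.mem_filter, Finset.mem_univ, true_and]; exact h⟩
  have h1 : Nat.card {G : SimpleGraph (Fin n) // ¬ Ext3 G}
      = (Finset.univ.filter fun G : SimpleGraph (Fin n) => ¬ Ext3 G).card := by
    rw [Nat.card_eq_fintype_card, Fintype.card_subtype]
  rw [h1]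
  have h2 := (Finset.card_le_card hsub).trans Finset.card_biUnion_le
  calc ((Finset.univ.filter fun G : SimpleGraph (Fin n) => ¬ Ext3 G).card : ℝ)
      ≤ ((∑ tq ∈ (Finset.univ.filter fun tq : (Fin 3 → Fin n) × (Fin 3 → Bool) =>
        Function.Injective tq.1), (Finset.univ.filter fun G : SimpleGraph (Fin n) =>
          ∀ w : Out tq.1, ¬ (∀ i, pat tq.1 G w i = tq.2 i)).card : ℕ) : ℝ) := by
        exact_mod_cast h2
    _ = ∑ tq ∈ (Finset.univ.filter fun tq : (Fin 3 → Fin n) × (Fin 3 → Bool) =>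
        Function.Injective tq.1), ((Finset.univ.filter fun G : SimpleGraph (Fin n) =>
          ∀ w : Out tq.1, ¬ (∀ i, pat tq.1 G w i = tq.2 i)).card : ℝ) := by
        push_cast; rfl
    _ = ∑ tq ∈ (Finset.univ.filter fun tq : (Fin 3 → Fin n) × (Fin 3 → Bool) =>
        Function.Injective tq.1), ((7 : ℝ) / 8) ^ (n - 3) * Nat.card (SimpleGraph (Fin n)) := by
        refine Finset.sum_congr rfl fun tq htq => ?_
        have ht : Function.Injective tq.1 := (Finset.mem_filter.mp htq).2
        have h := bad_count ht tq.2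
        rw [Nat.card_eq_fintype_card, Fintype.card_subtype, Fintype.card_fin] at h
        rw [h]
        norm_num
    _ ≤ ((n : ℝ) ^ 3 * 8) * (((7 : ℝ) / 8) ^ (n - 3) * Nat.card (SimpleGraph (Fin n))) := by
        rw [Finset.sum_const, nsmul_eq_mul]
        gcongr
        have h3 := Finset.card_filter_le (Finset.univ : Finset ((Fin 3 → Fin n) × (Fin 3 → Bool)))
          (fun tq => Function.Injective tq.1)
        have h4 : (Finset.univ : Finset ((Fin 3 → Fin n) × (Fin 3 → Bool))).card = n ^ 3 * 8 := by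
          rw [Finset.card_univ, Fintype.card_prod, Fintype.card_fun, Fintype.card_fun]
          simp
        rw [h4] at h3
        exact_mod_cast h3
    _ = _ := by ring

theorem tendsto_bound :
    Tendsto (fun n : ℕ => (n : ℝ) ^ 3 * 8 * ((7 : ℝ) / 8) ^ (n - 3)) atTop (𝓝 0) := by
  have h := tendsto_pow_const_mul_const_pow_of_abs_lt_one 3
    (show |(7 : ℝ) / 8| < 1 by rw [abs_of_pos (by norm_num)]; norm_num)
  have h2 := h.mul_const (8 * ((8 : ℝ) / 7) ^ 3)
  rw [zero_mul] at h2
  refine h2.congr' ?_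
  filter_upwards [eventually_ge_atTop 3] with n hn
  have : ((7 : ℝ) / 8) ^ n = ((7 : ℝ) / 8) ^ (n - 3) * ((7 : ℝ) / 8) ^ 3 := by
    rw [← pow_add]; congr 1; omega
  rw [this]
  ring

/-- A property implied by `Ext3` for large `n` holds for almost every graph. -/
theorem almost_all (Q : ∀ n : ℕ, SimpleGraph (Fin n) → Prop) (n₀ : ℕ)
    (hQ : ∀ n, n₀ ≤ n → ∀ G : SimpleGraph (Fin n), Ext3 G → Q n G) :
    Tendsto (fun n : ℕ => ({G : SimpleGraph (Fin n) | Q n G}.ncard : ℝ) /
      (Nat.card (SimpleGraph (Fin n)) : ℝ)) atTop (𝓝 1) := by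
  classical
  have hpos : ∀ n, (0 : ℝ) < Nat.card (SimpleGraph (Fin n)) := fun n => by
    have : 0 < Nat.card (SimpleGraph (Fin n)) := Nat.card_pos
    exact_mod_cast this
  have hle : ∀ n, ({G : SimpleGraph (Fin n) | Q n G}.ncard : ℝ) /
      (Nat.card (SimpleGraph (Fin n)) : ℝ) ≤ 1 := by
    intro n
    rw [div_le_one (hpos n)]
    have := Set.ncard_le_ncard (Set.subset_univ {G : SimpleGraph (Fin n) | Q n G})
      (Set.finite_univ)
    rw [Set.ncard_univ] at this
    exact_mod_cast this
  have hge : ∀ᶠ n : ℕ in atTop, 1 - (n : ℝ) ^ 3 * 8 * ((7 : ℝ) / 8) ^ (n - 3) ≤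
      ({G : SimpleGraph (Fin n) | Q n G}.ncard : ℝ) / (Nat.card (SimpleGraph (Fin n)) : ℝ) := by
    filter_upwards [eventually_ge_atTop n₀] with n hn
    rw [le_div_iff₀ (hpos n)]
    have h1 := bad_le n
    have h2 : (Nat.card (SimpleGraph (Fin n)) : ℝ) ≤
        ({G : SimpleGraph (Fin n) | Q n G}.ncard : ℝ) +
          Nat.card {G : SimpleGraph (Fin n) // ¬ Ext3 G} := by
      have h3 : Nat.card {G : SimpleGraph (Fin n) // ¬ Ext3 G}
          = ({G : SimpleGraph (Fin n) | ¬ Ext3 G}).ncard := rfl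
      have h4 : (Set.univ : Set (SimpleGraph (Fin n))) ⊆
          {G : SimpleGraph (Fin n) | Q n G} ∪ {G : SimpleGraph (Fin n) | ¬ Ext3 G} := by
        intro G _
        by_cases h : Ext3 G
        · exact Or.inl (hQ n hn G h)
        · exact Or.inr h
      have h5 := (Set.ncard_le_ncard h4 (Set.toFinite _)).trans (Set.ncard_union_le _ _)
      rw [Set.ncard_univ, ← h3] at h5
      exact_mod_cast h5
    nlinarith
  refine tendsto_of_tendsto_of_tendsto_of_le_of_le' ?_ tendsto_const_nhds hge
    (Eventually.of_forall hle)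
  have := (tendsto_const_nhds (x := (1 : ℝ))).sub tendsto_bound
  simpa using this

end Pool.Agent.X140.ExtProp
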