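import Mathlib

/-!
# Random iterations driven by an i.i.d. uniform sequence on a finite type
-/

namespace Pool.Agent.X140.RandIter

open MeasureTheory ProbabilityTheory Set
open scoped ENNReal

section

variable (V : Type) [Fintype V] [Nonempty V] [MeasurableSpace V]

/-- The law of an i.i.d. uniform sequence. -/
noncomputable def PP : Measure (ℕ → V) :=
  Measure.infinitePi fun _ : ℕ => (PMF.uniformOfFintype V).toMeasure

instance : IsProbabilityMeasure (PP V) := by unfold PP; infer_instance

end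

variable {V : Type} [Fintype V] [Nonempty V] [MeasurableSpace V] [MeasurableSingletonClass V]
variable {S : Type*}

/-- The trajectory. -/
def traj (up : V → S → S) (s₀ : S) (ω : ℕ → V) : ℕ → S
  | 0 => s₀
  | t + 1 => up (ω t) (traj up s₀ ω t)

/-- The transition operator. -/
noncomputable def T (up : V → S → S) (h : S → ℝ≥0∞) (s : S) : ℝ≥0∞ :=
  (∑ v, h (up v s)) / (Fintype.card V : ℝ≥0∞)

omit [Fintype V] [Nonempty V] [MeasurableSpace V] [MeasurableSingletonClass V] in
theorem traj_congr (up : V → S → S) (s₀ : S) {ω ω' : ℕ → V} {t : ℕ}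
    (h : ∀ i < t, ω i = ω' i) : traj up s₀ ω t = traj up s₀ ω' t := by
  induction t with
  | zero => rfl
  | succ t ih =>
    simp only [traj]
    rw [h t (Nat.lt_succ_self t), ih fun i hi => h i (Nat.lt_succ_of_lt hi)]

/-- A function of the first `t` coordinates. -/
theorem factor (t : ℕ) {α : Type*} (F : (ℕ → V) → α)
    (hF : ∀ ω ω' : ℕ → V, (∀ i < t, ω i = ω' i) → F ω = F ω') :
    ∃ φ : (Finset.range t → V) → α, ∀ ω, F ω = φ (fun i => ω i) := by
  classical
  refine ⟨fun x => F (fun i => if h : i ∈ Finset.range t then x ⟨i, h⟩ else Classical.arbitrary V),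
    fun ω => ?_⟩
  apply hF
  intro i hi
  simp [hi]

theorem measurable_of_factor (t : ℕ) {α : Type*} [MeasurableSpace α] (F : (ℕ → V) → α)
    (hF : ∀ ω ω' : ℕ → V, (∀ i < t, ω i = ω' i) → F ω = F ω') : Measurable F := by
  obtain ⟨φ, hφ⟩ := factor t F hF
  have : F = φ ∘ (fun ω (i : Finset.range t) => ω i) := funext hφ
  rw [this]
  have hm : Measurable φ := Measurable.of_discrete
  exact hm.comp (by fun_prop)

theorem PP_single (t : ℕ) (v : V) : (PP V) {ω | ω t = v} = (Fintype.card V : ℝ≥0∞)⁻¹ := by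
  have h := Measure.infinitePi_map_eval (fun _ : ℕ => (PMF.uniformOfFintype V).toMeasure) t
  have h2 : (PP V) {ω | ω t = v} = ((PP V).map (fun ω => ω t)) {v} := by
    rw [Measure.map_apply (measurable_pi_apply t) (measurableSet_singleton v)]
    rfl
  rw [h2]
  unfold PP
  rw [h, PMF.toMeasure_apply_singleton _ _ (measurableSet_singleton v)]
  simp

theorem lintegral_step (t : ℕ) {α : Type*} (F : (ℕ → V) → α)
    (hF : ∀ ω ω' : ℕ → V, (∀ i < t, ω i = ω' i) → F ω = F ω') (g : V → α → ℝ≥0∞) :
    ∫⁻ ω, g (ω t) (F ω) ∂(PP V) =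
      ∫⁻ ω, (∑ v, g v (F ω)) / (Fintype.card V : ℝ≥0∞) ∂(PP V) := by
  classical
  obtain ⟨φ, hφ⟩ := factor t F hF
  have hind : iIndepFun (fun (i : ℕ) (ω : ℕ → V) => ω i) (PP V) :=
    iIndepFun_infinitePi (P := fun _ : ℕ => (PMF.uniformOfFintype V).toMeasure)
      (X := fun _ x => x) (fun _ => measurable_id)
  have hind2 := hind.indepFun_finset (Finset.range t) {t} (by simp)
    (fun i => measurable_pi_apply i)
  have hgm : ∀ v, Measurable fun ω : ℕ → V => g v (F ω) := fun v =>
    measurable_of_factor t _ (fun ω ω' h => by rw [hF ω ω' h])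
  have hsplit : ∀ ω : ℕ → V, g (ω t) (F ω) =
      ∑ v, g v (F ω) * ({v} : Set V).indicator 1 (ω t) := by
    intro ω
    rw [Finset.sum_eq_single (ω t)]
    · simp
    · intro b _ hb
      rw [indicator_of_notMem (by simpa using hb.symm), mul_zero]
    · simp
  have him : ∀ v, Measurable fun ω : ℕ → V => ({v} : Set V).indicator (1 : V → ℝ≥0∞) (ω t) :=
    fun v => (measurable_one.indicator (measurableSet_singleton v)).comp (measurable_pi_apply t)
  simp_rw [hsplit]
  have hprod : ∀ v, Measurable fun ω : ℕ → V =>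
      g v (F ω) * ({v} : Set V).indicator (1 : V → ℝ≥0∞) (ω t) := fun v => (hgm v).mul (him v)
  rw [lintegral_finsetSum _ (fun v _ => hprod v)]
  have hterm : ∀ v, ∫⁻ ω, g v (F ω) * ({v} : Set V).indicator (1 : V → ℝ≥0∞) (ω t) ∂(PP V) =
      (∫⁻ ω, g v (F ω) ∂(PP V)) * (Fintype.card V : ℝ≥0∞)⁻¹ := by
    intro v
    have hi : IndepFun (fun ω : ℕ → V => g v (F ω))
        (fun ω => ({v} : Set V).indicator (1 : V → ℝ≥0∞) (ω t)) (PP V) := by
      have h := hind2.comp (φ := fun x => g v (φ x))
        (ψ := fun y : (({t} : Finset ℕ) → V) =>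
          ({v} : Set V).indicator (1 : V → ℝ≥0∞) (y ⟨t, Finset.mem_singleton_self t⟩))
        Measurable.of_discrete Measurable.of_discrete
      have hfun : (fun ω : ℕ → V => g v (F ω)) =
          (fun x => g v (φ x)) ∘ (fun (a : ℕ → V) (i : Finset.range t) => a i) := by
        funext ω
        simp only [Function.comp]
        rw [hφ]
      rw [hfun]
      exact h
    rw [show (∫⁻ ω, g v (F ω) * ({v} : Set V).indicator (1 : V → ℝ≥0∞) (ω t) ∂(PP V)) =
      ∫⁻ ω, ((fun ω : ℕ → V => g v (F ω)) *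
        (fun ω : ℕ → V => ({v} : Set V).indicator (1 : V → ℝ≥0∞) (ω t))) ω ∂(PP V) from rfl,
      lintegral_mul_eq_lintegral_mul_lintegral_of_indepFun (hgm v) (him v) hi]
    congr 1
    have h1 : (fun ω : ℕ → V => ({v} : Set V).indicator (1 : V → ℝ≥0∞) (ω t)) =
        ({ω : ℕ → V | ω t = v} : Set (ℕ → V)).indicator 1 := by
      funext ω
      by_cases hω : ω t = v
      · rw [indicator_of_mem (show ω t ∈ ({v} : Set V) from hω),
          indicator_of_mem (show ω ∈ ({ω : ℕ → V | ω t = v} : Set (ℕ → V)) from hω)]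
        rfl
      · rw [indicator_of_notMem (show ω t ∉ ({v} : Set V) from hω),
          indicator_of_notMem (show ω ∉ ({ω : ℕ → V | ω t = v} : Set (ℕ → V)) from hω)]
    have hms : MeasurableSet ({ω : ℕ → V | ω t = v} : Set (ℕ → V)) :=
      measurableSet_eq_fun (measurable_pi_apply t) measurable_const
    rw [h1]
    exact (lintegral_indicator_one hms).trans (PP_single t v)
  simp_rw [hterm]
  rw [← Finset.sum_mul, ← lintegral_finsetSum _ (fun v _ => hgm v), ← div_eq_mul_inv]
  simp_rw [div_eq_mul_inv]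
  rw [lintegral_mul_const _ (Finset.measurable_sum _ fun v _ => hgm v)]

/-- Expectation of a function of the trajectory at time `t`. -/
theorem lintegral_traj (up : V → S → S) (s₀ : S) (t : ℕ) : ∀ h : S → ℝ≥0∞,
    ∫⁻ ω, h (traj up s₀ ω t) ∂(PP V) = (T up)^[t] h s₀ := by
  induction t with
  | zero => intro h; simp [traj]
  | succ t ih =>
    intro h
    simp only [traj]
    rw [lintegral_step t (fun ω => traj up s₀ ω t) (fun ω ω' hω => traj_congr up s₀ hω)
      (fun v s => h (up v s)), Function.iterate_succ_apply, ← ih]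
    rfl

end Pool.Agent.X140.RandIter
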