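import Mathlib

/-!
# Expectations under a `PMF`
-/

namespace Pool.Agent.X140.PMFEx

open scoped ENNReal

/-- Expectation of a function under a `PMF`. -/
noncomputable def Ex {α : Type*} (p : PMF α) (f : α → ℝ≥0∞) : ℝ≥0∞ := ∑' a, p a * f a

theorem Ex_pure {α : Type*} (a : α) (f : α → ℝ≥0∞) : Ex (PMF.pure a) f = f a := by
  classical
  unfold Ex
  rw [tsum_eq_single a]
  · simp
  · intro b hb
    simp [PMF.pure_apply, hb]

theorem Ex_bind {α β : Type*} (p : PMF α) (q : α → PMF β) (f : β → ℝ≥0∞) :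
    Ex (p.bind q) f = Ex p (fun a => Ex (q a) f) := by
  unfold Ex
  simp_rw [PMF.bind_apply, ← ENNReal.tsum_mul_right, ← ENNReal.tsum_mul_left]
  rw [ENNReal.tsum_comm]
  simp_rw [mul_assoc]

theorem Ex_map {α β : Type*} (p : PMF α) (g : α → β) (f : β → ℝ≥0∞) :
    Ex (p.map g) f = Ex p (fun a => f (g a)) := by
  rw [← PMF.bind_pure_comp, Ex_bind]
  simp [Ex_pure]

theorem Ex_uniformOfFinset {α : Type*} (s : Finset α) (hs : s.Nonempty) (f : α → ℝ≥0∞) :
    Ex (PMF.uniformOfFinset s hs) f = (∑ a ∈ s, f a) / (s.card : ℝ≥0∞) := by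
  classical
  unfold Ex
  rw [tsum_eq_sum (s := s)]
  · rw [div_eq_mul_inv, Finset.sum_mul]
    refine Finset.sum_congr rfl fun a ha => ?_
    rw [PMF.uniformOfFinset_apply_of_mem hs ha, mul_comm]
  · intro b hb
    rw [PMF.uniformOfFinset_apply_of_notMem hs hb, zero_mul]

theorem toOuterMeasure_eq_Ex {α : Type*} (p : PMF α) (s : Set α) [DecidablePred (· ∈ s)] :
    p.toOuterMeasure s = Ex p (fun a => if a ∈ s then 1 else 0) := by
  classical
  rw [PMF.toOuterMeasure_apply]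
  unfold Ex
  refine tsum_congr fun a => ?_
  by_cases h : a ∈ s <;> simp [h]

theorem Ex_mono {α : Type*} (p : PMF α) {f g : α → ℝ≥0∞} (h : ∀ a, f a ≤ g a) :
    Ex p f ≤ Ex p g := by
  unfold Ex
  exact ENNReal.tsum_le_tsum fun a => by gcongr; exact h a

theorem Ex_const {α : Type*} (p : PMF α) (c : ℝ≥0∞) : Ex p (fun _ => c) = c := by
  unfold Ex
  rw [ENNReal.tsum_mul_right, p.tsum_coe, one_mul]

theorem Ex_add {α : Type*} (p : PMF α) (f g : α → ℝ≥0∞) :
    Ex p (fun a => f a + g a) = Ex p f + Ex p g := by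
  unfold Ex
  simp_rw [mul_add]
  exact ENNReal.tsum_add

end Pool.Agent.X140.PMFEx
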