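import Mathlib
import Pool.Agent.H499R2.NDBM
import Pool.Agent.H723R2.BMGrow

/-! Quadratic means of the solutions of the Berg-Meinardus equation on circles. -/

set_option autoImplicit false

open Filter Topology Set MeasureTheory

namespace Pool.Agent.X140.BMP

open Pool.Agent.H397R2

/-- Fourier coefficients of negative index of a power series vanish. -/
lemma fourierCoeffOn_neg {f : ℕ → ℂ} {r : ℝ} (hr : 0 ≤ r) (hf : Summable fun n => ‖f n‖ * r ^ n)
    (k : ℤ) (hk : k < 0) : fourierCoeffOn (Real.two_pi_pos) (ser f r) k = 0 := by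
  rw [fourierCoeffOn_eq_integral]
  have hterm : ∀ (m : ℕ) (x : ℝ), (fourier (-k) (x : AddCircle (2 * Real.pi - 0)) : ℂ) •
      (f m * (cp r x) ^ m) = f m * (r : ℂ) ^ m * Complex.exp (((m : ℂ) - k) * Complex.I * x) := by
    intro m x
    rw [fourier_coe_apply, smul_eq_mul, cp, mul_pow, ← Complex.exp_nat_mul]
    have h1 : (2 : ℂ) * Real.pi * Complex.I * ((-k : ℤ) : ℂ) * x / ((2 * Real.pi - 0 : ℝ) : ℂ)
        = -(k : ℂ) * Complex.I * x := by
      have : (Real.pi : ℂ) ≠ 0 := by exact_mod_cast Real.pi_ne_zero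
      push_cast
      rw [sub_zero]
      field_simp
    rw [h1]
    have h2 : Complex.exp (((m : ℂ) - k) * Complex.I * x) =
        Complex.exp (-(k : ℂ) * Complex.I * x) * Complex.exp ((m : ℂ) * (x * Complex.I)) := by
      rw [← Complex.exp_add]; congr 1; ring
    rw [h2]; ring
  have hsum : HasSum (fun m : ℕ => ∫ x in (0 : ℝ)..(2 * Real.pi),
      (fourier (-k) (x : AddCircle (2 * Real.pi - 0)) : ℂ) • (f m * (cp r x) ^ m))
      (∫ x in (0 : ℝ)..(2 * Real.pi),
        (fourier (-k) (x : AddCircle (2 * Real.pi - 0)) : ℂ) • ser f r x) := by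
    refine intervalIntegral.hasSum_integral_of_dominated_convergence
      (fun m _ => ‖f m‖ * r ^ m) (fun m => ?_) (fun m => ?_) ?_ ?_ ?_
    · apply Continuous.aestronglyMeasurable
      simp_rw [hterm]
      fun_prop
    · filter_upwards with x _
      rw [norm_smul, norm_term hr, fourier_coe_apply]
      have : ‖Complex.exp (2 * (Real.pi : ℂ) * Complex.I * ((-k : ℤ) : ℂ) * x /
          ((2 * Real.pi - 0 : ℝ) : ℂ))‖ = 1 := by
        have e : 2 * (Real.pi : ℂ) * Complex.I * ((-k : ℤ) : ℂ) * x /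
          ((2 * Real.pi - 0 : ℝ) : ℂ) = ((-(k : ℝ) * x : ℝ) : ℂ) * Complex.I := by
          have : (Real.pi : ℂ) ≠ 0 := by exact_mod_cast Real.pi_ne_zero
          push_cast
          rw [sub_zero]
          field_simp
        rw [e, Complex.norm_exp_ofReal_mul_I]
      rw [this, one_mul]
    · filter_upwards with x _
      exact hf
    · exact continuous_const.intervalIntegrable _ _
    · filter_upwards with x _
      exact (hasSum_ser hr hf x).const_smul _
  have hint : ∀ m : ℕ, ∫ x in (0 : ℝ)..(2 * Real.pi),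
      (fourier (-k) (x : AddCircle (2 * Real.pi - 0)) : ℂ) • (f m * (cp r x) ^ m) = 0 := by
    intro m
    simp_rw [hterm]
    rw [intervalIntegral.integral_const_mul, integral_exp_mul_complex]
    · have e1 : Complex.exp (((m : ℂ) - k) * Complex.I * ((2 * Real.pi : ℝ) : ℂ)) = 1 := by
        rw [Complex.exp_eq_one_iff]
        exact ⟨(m : ℤ) - k, by push_cast; ring⟩
      rw [e1]; simp
    · apply mul_ne_zero _ Complex.I_ne_zero
      rw [sub_ne_zero]
      intro h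
      have h' : ((m : ℤ) : ℂ) = (k : ℂ) := by rw [← h]; push_cast; rfl
      have : (m : ℤ) = k := by exact_mod_cast h'
      omega
  simp_rw [hint] at hsum
  have h2 : HasSum (fun _ : ℕ => (0 : ℂ)) 0 := hasSum_zero
  rw [← h2.unique hsum, smul_zero]

/-- Parseval's identity for power series. -/
lemma parseval {f : ℕ → ℂ} {r : ℝ} (hr : 0 ≤ r) (hf : Summable fun n => ‖f n‖ * r ^ n) :
    HasSum (fun n => ‖f n‖ ^ 2 * r ^ (2 * n))
      ((2 * Real.pi)⁻¹ * ∫ θ in (0 : ℝ)..(2 * Real.pi), ‖ser f r θ‖ ^ 2) := by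
  have hcont := continuous_ser hr hf
  have hL2 : MemLp (ser f r) 2 (volume.restrict (Ioc 0 (2 * Real.pi))) := by
    refine MemLp.of_bound hcont.aestronglyMeasurable (∑' n, ‖f n‖ * r ^ n) ?_
    filter_upwards with θ
    exact norm_ser_le hr hf θ
  have h := hasSum_sq_fourierCoeffOn Real.two_pi_pos hL2
  rw [sub_zero, smul_eq_mul] at h
  have hinj : Function.Injective (fun n : ℕ => (n : ℤ)) := fun a b hab => Int.ofNat.inj hab
  have h2 := (hinj.hasSum_iff (f := fun i : ℤ => ‖fourierCoeffOn Real.two_pi_pos (ser f r) i‖ ^ 2)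
    (a := (2 * Real.pi)⁻¹ * ∫ θ in (0 : ℝ)..(2 * Real.pi), ‖ser f r θ‖ ^ 2) (by
      intro k hk
      have hk0 : k < 0 := by
        by_contra hcon
        push Not at hcon
        exact hk ⟨k.toNat, by simp [Int.toNat_of_nonneg hcon]⟩
      rw [fourierCoeffOn_neg hr hf k hk0, norm_zero]
      norm_num)).2 h
  refine h2.congr_fun ?_
  intro n
  simp only [Function.comp_apply]
  rw [fourierCoeffOn_ser hr hf, norm_mul, norm_pow, Complex.norm_real, Real.norm_eq_abs,
    abs_of_nonneg hr]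
  ring


theorem inv_Tn {α : Type*} {c : ℕ → α} (hc : CInv c) {n : ℕ} (hn : 1 ≤ n) :
    c n = c (Pool.Agent.H499R2.ND.Tn n) := by
  unfold Pool.Agent.H499R2.ND.Tn
  split_ifs with h
  · obtain ⟨k, rfl⟩ : ∃ k, n = 2 * k := ⟨n / 2, by omega⟩
    rw [hc.even, show 2 * k / 2 = k by omega]
  · obtain ⟨k, rfl⟩ : ∃ k, n = 2 * k + 1 := ⟨n / 2, by omega⟩
    rw [show (3 * (2 * k + 1) + 1) / 2 = 3 * k + 2 by omega, hc.odd]

theorem inv_pos {n : ℕ} (hn : 1 ≤ n) : 1 ≤ Pool.Agent.H499R2.ND.Tn n := by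
  unfold Pool.Agent.H499R2.ND.Tn
  split_ifs with h <;> omega

/-- the coefficients of `h - μ z / (1 - z)` -/
noncomputable def fc (h : ℂ → ℂ) (μ : ℂ) (n : ℕ) : ℂ := if n = 0 then tc h 0 else tc h n - μ

theorem hasSum_fc {h : ℂ → ℂ} (hd : DifferentiableOn ℂ h (Metric.ball 0 1)) (m : ℂ) {z : ℂ}
    (hz : ‖z‖ < 1) : HasSum (fun n => fc h m n * z ^ n) (h z - m * (z / (1 - z))) := by
  have s1 := hasSum_tc hd hz
  have s2 : HasSum (fun n : ℕ => m * z * z ^ n) (m * z * (1 - z)⁻¹) :=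
    (hasSum_geometric_of_norm_lt_one hz).mul_left _
  have s3 : HasSum (fun n : ℕ => (fun n : ℕ => if n = 0 then (0 : ℂ) else m * z ^ n) (n + 1))
      (m * z * (1 - z)⁻¹) := by
    refine hs_congr s2 (fun n => ?_)
    simp only [Nat.add_eq_zero_iff, one_ne_zero, and_false, if_false]
    ring
  have s4 := (hasSum_nat_add_iff (f := fun n : ℕ => if n = 0 then (0 : ℂ) else m * z ^ n)
    1).mp s3
  simp only [Finset.range_one, Finset.sum_singleton, if_true, add_zero] at s4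
  have s5 := s1.sub s4
  rw [show h z - m * z * (1 - z)⁻¹ = h z - m * (z / (1 - z)) by
    rw [div_eq_mul_inv]; ring] at s5
  refine hs_congr s5 (fun n => ?_)
  simp only [fc]
  split_ifs with h0
  · rw [sub_zero, h0]
  · ring

theorem norm_fc_le {h : ℂ → ℂ} {M : ℝ} (hM : ∀ n, 1 ≤ n → ‖tc h n‖ ≤ M) (μ : ℂ) (n : ℕ) :
    ‖fc h μ n‖ ≤ max M ‖tc h 0‖ + ‖μ‖ := by
  unfold fc
  split_ifs with h0
  · exact (le_max_right _ _).trans (le_add_of_nonneg_right (norm_nonneg _))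
  · exact (norm_sub_le _ _).trans (add_le_add ((hM n (by omega)).trans (le_max_left _ _)) le_rfl)

theorem ev_near : ∀ᶠ r : ℝ in 𝓝[<] (1 : ℝ), 1 / 2 < r ∧ r < 1 :=
  Pool.Agent.H723R2.BMGrow.ev_near

/-- For bounded coefficients: all quadratic means have limits. -/
theorem means {h : ℂ → ℂ} (hd : DifferentiableOn ℂ h (Metric.ball 0 1)) (hc : CInv (tc h))
    {M : ℝ} (hM : ∀ n, 1 ≤ n → ‖tc h n‖ ≤ M) :
    ∃ (m : ℂ) (A : ℝ), 0 ≤ A ∧
      Tendsto (fun r : ℝ => (1 - (r : ℂ)) * h r) (𝓝[<] (1 : ℝ)) (𝓝 m) ∧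
      (∀ w : ℂ, ‖w‖ = 1 → w ≠ 1 →
        Tendsto (fun r : ℝ => (1 - (r : ℂ)) * h ((r : ℂ) * w)) (𝓝[<] (1 : ℝ)) (𝓝 0)) ∧
      (∀ μ : ℂ, Tendsto (fun r : ℝ => (1 - r) * ∫ θ in (0 : ℝ)..(2 * Real.pi),
          ‖h (cp r θ) - μ * (cp r θ / (1 - cp r θ))‖ ^ 2) (𝓝[<] (1 : ℝ))
          (𝓝 (A + Real.pi * ‖m - μ‖ ^ 2))) ∧
      (A = 0 → ∃ c₀ : ℂ, ∀ z : ℂ, ‖z‖ < 1 → h z = c₀ + m * (z / (1 - z))) := by
  obtain ⟨m, hm1, -, -, hm2⟩ := Pool.Agent.H723R2.BMGrow.part2 hd hc hM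
  -- the quadratic means of the shifted coefficients
  have hq : ∀ μ : ℂ, ∃ V : ℝ,
      Tendsto (fun r : ℝ => (1 - r) * ∑' n, ‖fc h μ n‖ ^ 2 * r ^ n) (𝓝[<] 1) (𝓝 V) ∧
      ‖m - μ‖ ^ 2 ≤ V ∧ (V = ‖m - μ‖ ^ 2 → ∀ n, 1 ≤ n → fc h μ n = m - μ) := by
    intro μ
    obtain ⟨L, V, h1, h2, h3, h4⟩ := Pool.Agent.H499R2.ND.quad_means (c := fc h μ)
      (norm_fc_le hM μ) (fun n hn => by
        have h5 := inv_Tn hc hn
        have h6 := inv_pos hn
        simp only [fc]
        rw [if_neg (by omega), if_neg (by omega), h5])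
    have hL : L = m - μ := by
      have e1 : Tendsto (fun r : ℝ => (1 - (r : ℂ)) * h r - μ * (r : ℂ)) (𝓝[<] 1)
          (𝓝 (m - μ * 1)) := hm1.sub (Pool.Agent.H723R2.BMGrow.tendsto_cast.const_mul μ)
      rw [mul_one] at e1
      refine tendsto_nhds_unique h1 (e1.congr' ?_)
      filter_upwards [ev_near] with r hr
      have hz : ‖(r : ℂ)‖ < 1 := by
        rw [Complex.norm_real, Real.norm_eq_abs, abs_of_pos (by linarith [hr.1])]
        exact hr.2
      have hne : (1 - (r : ℂ)) ≠ 0 := by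
        rw [sub_ne_zero]
        intro h0
        have : (1 : ℝ) = r := by exact_mod_cast h0
        linarith [hr.2]
      rw [(hasSum_fc hd μ hz).tsum_eq]
      field_simp
    subst hL
    exact ⟨V, h2, h3, h4⟩
  choose V hV1 hV2 hV3 using hq
  -- the dependence on μ
  have hVμ : ∀ μ, V μ = V 0 - ‖m‖ ^ 2 + ‖m - μ‖ ^ 2 := by
    intro μ
    have e1 : Tendsto (fun r : ℝ => (1 - r) * ∑' n, ‖fc h 0 n‖ ^ 2 * r ^ n +
        (-2 * (starRingEnd ℂ μ * ((1 - (r : ℂ)) * h r - (1 - (r : ℂ)) * tc h 0)).re +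
          ‖μ‖ ^ 2 * r)) (𝓝[<] 1)
        (𝓝 (V 0 + (-2 * (starRingEnd ℂ μ * (m - 0 * tc h 0)).re + ‖μ‖ ^ 2 * 1))) := by
      refine (hV1 0).add (Tendsto.add ?_ ?_)
      · refine Tendsto.const_mul _ ((Complex.continuous_re.tendsto _).comp
          (Tendsto.const_mul _ (hm1.sub (Tendsto.mul_const _ ?_))))
        have := (tendsto_const_nhds (x := (1 : ℂ))).sub Pool.Agent.H723R2.BMGrow.tendsto_cast
        rwa [sub_self] at this
      · exact Tendsto.const_mul _ (tendsto_id.mono_left nhdsWithin_le_nhds)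
    have e2 := tendsto_nhds_unique (hV1 μ) (e1.congr' (by
      filter_upwards [ev_near] with r hr
      have hr0 : 0 ≤ r := by linarith [hr.1]
      have hz : ‖(r : ℂ)‖ < 1 := by
        rw [Complex.norm_real, Real.norm_eq_abs, abs_of_nonneg hr0]
        exact hr.2
      have s1 := hasSum_tc hd hz
      have s2 : HasSum (fun n : ℕ => r ^ n) (1 - r)⁻¹ := hasSum_geometric_of_lt_one hr0 hr.2
      have hbd : ∀ (ν : ℂ) (n : ℕ), |‖fc h ν n‖ ^ 2| ≤ (max M ‖tc h 0‖ + ‖ν‖) ^ 2 := by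
        intro ν n
        rw [abs_of_nonneg (by positivity)]
        exact pow_le_pow_left₀ (norm_nonneg _) (norm_fc_le hM ν n) 2
      have hsV : ∀ ν : ℂ, Summable (fun n => ‖fc h ν n‖ ^ 2 * r ^ n) := fun ν =>
        (Pool.Agent.H723R2.Abel.summable_of_bdd (hbd ν) hr0 hr.2).of_norm
      have s3 : HasSum (fun n : ℕ => (starRingEnd ℂ μ * (tc h n * (r : ℂ) ^ n)).re)
          (starRingEnd ℂ μ * h r).re := Complex.hasSum_re (s1.mul_left _)
      -- difference of the two series, terms of index at least one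
      have s4 : HasSum (fun n : ℕ => ‖fc h μ n‖ ^ 2 * r ^ n - ‖fc h 0 n‖ ^ 2 * r ^ n)
          (-2 * ((starRingEnd ℂ μ * h r).re - (starRingEnd ℂ μ * tc h 0).re) +
            ‖μ‖ ^ 2 * ((1 - r)⁻¹ - 1)) := by
        have s5 := ((s3.sub (hasSum_ite_eq 0 (starRingEnd ℂ μ * tc h 0).re)).mul_left (-2)).add
          ((s2.sub (hasSum_ite_eq 0 (1 : ℝ))).mul_left (‖μ‖ ^ 2))
        refine s5.congr_fun ?_
        intro n
        rcases Nat.eq_zero_or_pos n with rfl | hn
        · simp [fc]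
        · have hn0 : n ≠ 0 := by omega
          simp only [fc, if_neg hn0, sub_zero]
          have e4 : ‖tc h n - μ‖ ^ 2 = ‖tc h n‖ ^ 2 + ‖μ‖ ^ 2 -
              2 * (starRingEnd ℂ μ * tc h n).re := by
            rw [← Complex.normSq_eq_norm_sq, ← Complex.normSq_eq_norm_sq,
              ← Complex.normSq_eq_norm_sq, Complex.normSq_sub, mul_comm (starRingEnd ℂ μ)]
          have e5 : (starRingEnd ℂ μ * (tc h n * (r : ℂ) ^ n)).re =
              (starRingEnd ℂ μ * tc h n).re * r ^ n := by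
            rw [← mul_assoc, ← Complex.ofReal_pow, Complex.re_mul_ofReal]
          rw [e4, e5]
          ring
      have s6 := ((hsV μ).hasSum.sub (hsV 0).hasSum).unique s4
      have hne : (1 - r) ≠ 0 := by linarith [hr.2]
      have e6 : (starRingEnd ℂ μ * ((1 - (r : ℂ)) * h r - (1 - (r : ℂ)) * tc h 0)).re =
          (1 - r) * ((starRingEnd ℂ μ * h r).re - (starRingEnd ℂ μ * tc h 0).re) := by
        rw [show starRingEnd ℂ μ * ((1 - (r : ℂ)) * h r - (1 - (r : ℂ)) * tc h 0) =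
          ((1 - r : ℝ) : ℂ) * (starRingEnd ℂ μ * h r - starRingEnd ℂ μ * tc h 0) by
            push_cast; ring, Complex.re_ofReal_mul, Complex.sub_re]
      rw [e6, show ∑' n, ‖fc h μ n‖ ^ 2 * r ^ n = ∑' n, ‖fc h 0 n‖ ^ 2 * r ^ n +
        (-2 * ((starRingEnd ℂ μ * h r).re - (starRingEnd ℂ μ * tc h 0).re) +
            ‖μ‖ ^ 2 * ((1 - r)⁻¹ - 1)) by linarith]
      field_simp
      ring))
    have e7 : ‖m - μ‖ ^ 2 = ‖m‖ ^ 2 + ‖μ‖ ^ 2 - 2 * (starRingEnd ℂ μ * m).re := by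
      rw [← Complex.normSq_eq_norm_sq, ← Complex.normSq_eq_norm_sq,
        ← Complex.normSq_eq_norm_sq, Complex.normSq_sub, mul_comm (starRingEnd ℂ μ)]
    rw [e2, e7]
    simp only [zero_mul, sub_zero, mul_one]
    ring
  refine ⟨m, Real.pi * (V 0 - ‖m‖ ^ 2), ?_, hm1, hm2, ?_, ?_⟩
  · have := hV2 0
    rw [sub_zero] at this
    exact mul_nonneg Real.pi_pos.le (by linarith)
  · intro μ
    have hsq : Tendsto (fun r : ℝ => r ^ 2) (𝓝[<] (1 : ℝ)) (𝓝[<] (1 : ℝ)) := by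
      refine tendsto_nhdsWithin_iff.2 ⟨?_, ?_⟩
      · have : Tendsto (fun r : ℝ => r ^ 2) (𝓝 (1 : ℝ)) (𝓝 (1 ^ 2)) :=
          (continuous_pow 2).tendsto 1
        rw [one_pow] at this
        exact this.mono_left nhdsWithin_le_nhds
      · filter_upwards [ev_near] with r hr
        have : r ^ 2 < 1 := by nlinarith [hr.1, hr.2]
        exact this
    have h1 := (hV1 μ).comp hsq
    have h2 : Tendsto (fun r : ℝ => 2 * Real.pi / (1 + r)) (𝓝[<] (1 : ℝ))
        (𝓝 (2 * Real.pi / (1 + 1))) := by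
      apply Tendsto.mono_left _ nhdsWithin_le_nhds
      exact (continuousAt_const.div (continuousAt_const.add continuousAt_id) (by norm_num)).tendsto
    have h3 := h2.mul h1
    have e : 2 * Real.pi / (1 + 1) * V μ = Real.pi * (V 0 - ‖m‖ ^ 2) + Real.pi * ‖m - μ‖ ^ 2 := by
      rw [hVμ μ]; ring
    rw [e] at h3
    refine h3.congr' ?_
    filter_upwards [ev_near] with r hr
    have hr0 : 0 ≤ r := by linarith [hr.1]
    have hsum : Summable fun n => ‖fc h μ n‖ * r ^ n := by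
      have h1 := (hasSum_fc hd μ (z := cp r 0) (by rw [norm_cp hr0]; exact hr.2)).summable.norm
      simpa only [norm_term hr0] using h1
    have e1 : ∀ θ, ser (fc h μ) r θ = h (cp r θ) - μ * (cp r θ / (1 - cp r θ)) := fun θ =>
      (hasSum_ser hr0 hsum θ).unique (hasSum_fc hd μ (by rw [norm_cp hr0]; exact hr.2))
    have e2 := (parseval hr0 hsum).tsum_eq
    simp_rw [e1] at e2
    have e3 : ∑' n, ‖fc h μ n‖ ^ 2 * (r ^ 2) ^ n = (2 * Real.pi)⁻¹ *
        ∫ θ in (0 : ℝ)..(2 * Real.pi), ‖h (cp r θ) - μ * (cp r θ / (1 - cp r θ))‖ ^ 2 := by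
      rw [← e2]
      exact tsum_congr fun n => by rw [← pow_mul]
    simp only [Function.comp_apply]
    rw [e3]
    have h5 : (1 + r) ≠ 0 := by linarith
    have h6 : (2 * Real.pi) ≠ 0 := Real.two_pi_pos.ne'
    have h7 : Real.pi ≠ 0 := Real.pi_ne_zero
    field_simp
    ring
  · intro hA
    have h1 : V 0 = ‖m - 0‖ ^ 2 := by
      rw [sub_zero]
      rcases mul_eq_zero.1 hA with h | h
      · exact absurd h Real.pi_ne_zero
      · linarith
    refine Pool.Agent.H723R2.BMGrow.triv hd fun n hn => ?_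
    have h2 := hV3 0 h1 n hn
    simp only [fc, if_neg (show n ≠ 0 by omega), sub_zero] at h2
    exact h2

end Pool.Agent.X140.BMP
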