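import Pool.Agent.W33.Coll.Main

/-! Power savings for numbers whose trajectories are fast at small scales. -/

set_option autoImplicit false

namespace Pool.Agent.X140.C3

open Finset Filter Pool.Agent.H395R2.G3 Pool.Agent.W33.Coll

/-- the numbers up to `x` which are not `c`-fast, although all the elements up to `x ^ η` of their
trajectories are `C`-fast -/
def Slo (C c η x : ℝ) : Set ℕ :=
  {n : ℕ | 1 ≤ n ∧ (n : ℝ) ≤ x ∧ ¬ Fast c n ∧
    ∀ j : ℕ, 2 ≤ fT^[j] n → ((fT^[j] n : ℕ) : ℝ) ≤ x ^ η → Fast C (fT^[j] n)}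

theorem saving {C c : ℝ} (hc : 2 / Real.log (4 / 3) < c) :
    ∃ η : ℝ, 0 < η ∧ ∃ δ : ℝ, 0 < δ ∧ ∃ X : ℝ, ∀ x : ℝ, X ≤ x →
      ((Slo C c η x).ncard : ℝ) ≤ x ^ (1 - δ) := by
  have hμ4 := mu_gt_four
  have hl0 : 0 < Real.log (4 / 3) := Real.log_pos (by norm_num)
  set l := Real.log (4 / 3) with hl
  set μ := 2 / l with hμ
  have hμl : μ * l = 2 := by rw [hμ]; field_simp
  set D := max C 1 with hD
  have hD1 : 1 ≤ D := le_max_right _ _
  -- parameters
  set ε := (c - μ) / (4 * μ) with hε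
  have hε0 : 0 < ε := div_pos (by linarith) (by linarith)
  have hεμ : ε * μ = (c - μ) / 4 := by
    rw [hε]
    have : μ ≠ 0 := by linarith
    field_simp
  set η := min ((c - μ) / (8 * D)) 1 with hη
  have hη0 : 0 < η := lt_min (div_pos (by linarith) (by linarith)) one_pos
  have hη1 : η ≤ 1 := min_le_right _ _
  have hηD : D * η ≤ (c - μ) / 8 := by
    have h1 : η ≤ (c - μ) / (8 * D) := min_le_left _ _
    calc D * η ≤ D * ((c - μ) / (8 * D)) := mul_le_mul_of_nonneg_left h1 (by linarith)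
      _ = (c - μ) / 8 := by
          have : D ≠ 0 := by linarith
          field_simp
  obtain ⟨c1, C1, hc1, hC1, hlaw⟩ := Pool.Agent.H828R3.Exc.law hε0
  set δ := min (c1 * η) 1 / 4 with hδ
  have hδ0 : 0 < δ := by
    rw [hδ]
    have : 0 < min (c1 * η) 1 := lt_min (by positivity) one_pos
    linarith
  have hδ1 : 4 * δ ≤ c1 * η := by
    rw [hδ]
    have := min_le_left (c1 * η) 1
    linarith
  have hδ2 : 4 * δ ≤ 1 := by
    rw [hδ]
    have := min_le_right (c1 * η) 1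
    linarith
  -- the comparison for large `x`
  have hlogs : ∀ᶠ x : ℝ in atTop, x ^ (1 / 2 : ℝ) + 1 + 2 * (C1 * (Real.log x) ^ 4 * x ^ (1 - 4 * δ)) ≤
      x ^ (1 - δ) := by
    have h1 : Tendsto (fun x : ℝ => (Real.log x) ^ 4 / x ^ δ) atTop (nhds 0) := by
      have := isLittleO_log_rpow_atTop (show 0 < δ / 4 by positivity)
      have h2 := this.tendsto_div_nhds_zero
      have h3 := h2.pow 4
      rw [zero_pow (by norm_num)] at h3
      refine h3.congr' ?_
      filter_upwards [eventually_gt_atTop 0] with x hx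
      rw [div_pow, ← Real.rpow_natCast (x ^ (δ / 4)), ← Real.rpow_mul hx.le]
      norm_num
    have h2 := h1.eventually (gt_mem_nhds (show (0 : ℝ) < 1 / (8 * C1) by positivity))
    have h3 := (tendsto_rpow_atTop (show 0 < δ by exact hδ0)).eventually_ge_atTop 4
    filter_upwards [h2, h3, eventually_ge_atTop 1] with x hx1 hx2 hx3
    have hx0 : 0 < x := by linarith
    have e1 : x ^ (1 - δ) = x ^ (1 - 2 * δ) * x ^ δ := by
      rw [← Real.rpow_add hx0]
      congr 1
      ring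
    have hp : 0 < x ^ (1 - 2 * δ) := Real.rpow_pos_of_pos hx0 _
    have f1 : x ^ (1 / 2 : ℝ) ≤ x ^ (1 - 2 * δ) :=
      Real.rpow_le_rpow_of_exponent_le hx3 (by linarith)
    have f2 : (1 : ℝ) ≤ x ^ (1 - 2 * δ) := Real.one_le_rpow hx3 (by linarith)
    have f3 : (Real.log x) ^ 4 ≤ 1 / (8 * C1) * x ^ δ := by
      have hpos : 0 < x ^ δ := Real.rpow_pos_of_pos hx0 _
      have := hx1.le
      rwa [div_le_iff₀ hpos] at this
    have f4 : C1 * (Real.log x) ^ 4 * x ^ (1 - 4 * δ) ≤ x ^ (1 - 2 * δ) / 8 * 1 := by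
      have hq : 0 < x ^ (1 - 4 * δ) := Real.rpow_pos_of_pos hx0 _
      have e2 : x ^ δ * x ^ (1 - 4 * δ) ≤ x ^ (1 - 2 * δ) := by
        rw [← Real.rpow_add hx0]
        exact Real.rpow_le_rpow_of_exponent_le hx3 (by linarith)
      calc C1 * (Real.log x) ^ 4 * x ^ (1 - 4 * δ)
          ≤ C1 * (1 / (8 * C1) * x ^ δ) * x ^ (1 - 4 * δ) := by gcongr
        _ = (x ^ δ * x ^ (1 - 4 * δ)) / 8 := by
            field_simp
        _ ≤ x ^ (1 - 2 * δ) / 8 := by linarith
        _ = x ^ (1 - 2 * δ) / 8 * 1 := by ring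
    rw [e1]
    nlinarith
  obtain ⟨X, hX⟩ := eventually_atTop.1 hlogs
  refine ⟨η, hη0, δ, hδ0, max X 4, fun x hx => ?_⟩
  have hx4 : 4 ≤ x := le_trans (le_max_right _ _) hx
  have hxX := hX x (le_trans (le_max_left _ _) hx)
  have hx0 : 0 < x := by linarith
  have hlx : 0 < Real.log x := Real.log_pos (by linarith)
  have hyy : 1 ≤ x ^ η := Real.one_le_rpow (by linarith) hη0.le
  have hL := hlaw x (x ^ η) (x ^ 2) (by linarith) hyy (by nlinarith)
  have hsub : Slo C c η x ⊆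
      (Set.Iic ⌊x ^ (1 / 2 : ℝ)⌋₊) ∪
      {n : ℕ | 1 ≤ n ∧ (n : ℝ) ≤ x ∧ ¬ Pool.Agent.H828R3.Exc.Pr ε (x ^ η) (x ^ 2) n} := by
    rintro n ⟨h1, h2, h4, hR⟩
    by_cases h5 : (n : ℝ) ≤ x ^ (1 / 2 : ℝ)
    · left
      exact Nat.le_floor h5
    · right
      refine ⟨h1, h2, fun h6 => h4 ?_⟩
      rw [not_le] at h5
      obtain ⟨m, hm1, hm2⟩ := h6
      have hTT : Pool.Agent.Helper894.Collatz.T = fT := rfl
      rw [hTT] at hm1 hm2
      have hn0 : (0 : ℝ) < n := by exact_mod_cast h1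
      have hlogn : 1 / 2 * Real.log x ≤ Real.log n := by
        rw [← Real.log_rpow hx0]
        exact Real.log_le_log (Real.rpow_pos_of_pos hx0 _) h5.le
      have hpos : 1 ≤ fT^[m] n := fT_iter_pos h1 m
      have hposR : (0 : ℝ) < (fT^[m] n : ℕ) := by exact_mod_cast hpos
      -- time of the descent
      have htime : (m : ℝ) ≤ (1 + ε) * μ * Real.log n := by
        have h7 := (abs_le.1 (hm2 m le_rfl).1).2
        have hmu : Pool.Agent.H319R2.Lln.mu = l / 2 := rfl
        rw [hmu] at h7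
        have h8 : 0 ≤ Real.log (fT^[m] n : ℕ) := Real.log_natCast_nonneg _
        have h9 : l / 2 * m ≤ (1 + ε) * Real.log n := by linarith
        have h10 : (m : ℝ) = μ * (l / 2 * m) := by
          have : μ * (l / 2 * m) = μ * l / 2 * m := by ring
          rw [this, hμl]
          ring
        rw [h10]
        calc μ * (l / 2 * m) ≤ μ * ((1 + ε) * Real.log n) :=
              mul_le_mul_of_nonneg_left h9 (by linarith)
          _ = (1 + ε) * μ * Real.log n := by ring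
      have hfin : ∃ k : ℕ, (k : ℝ) ≤ D * (η * Real.log x) ∧ fT^[k] (fT^[m] n) = 1 := by
        rcases Nat.lt_or_ge (fT^[m] n) 2 with h7 | h7
        · refine ⟨0, ?_, ?_⟩
          · push_cast
            positivity
          · rw [Function.iterate_zero_apply]
            omega
        · obtain ⟨k, hk1, hk2⟩ := hR m h7 hm1
          refine ⟨k, hk1.trans ?_, hk2⟩
          have h8 : Real.log (fT^[m] n : ℕ) ≤ η * Real.log x := by
            rw [← Real.log_rpow hx0]
            exact Real.log_le_log hposR hm1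
          calc C * Real.log (fT^[m] n : ℕ) ≤ D * Real.log (fT^[m] n : ℕ) :=
                mul_le_mul_of_nonneg_right (le_max_left _ _) (Real.log_natCast_nonneg _)
            _ ≤ D * (η * Real.log x) := mul_le_mul_of_nonneg_left h8 (by linarith)
      obtain ⟨k, hk1, hk2⟩ := hfin
      refine ⟨k + m, ?_, by rw [Function.iterate_add_apply, hk2]⟩
      push_cast
      have h11 : D * (η * Real.log x) ≤ (c - μ) / 4 * Real.log n := by
        calc D * (η * Real.log x) = (D * η) * Real.log x := by ring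
          _ ≤ (c - μ) / 8 * Real.log x := mul_le_mul_of_nonneg_right hηD hlx.le
          _ = (c - μ) / 4 * (1 / 2 * Real.log x) := by ring
          _ ≤ (c - μ) / 4 * Real.log n := mul_le_mul_of_nonneg_left hlogn (by linarith)
      have h12 : (1 + ε) * μ * Real.log n = μ * Real.log n + (c - μ) / 4 * Real.log n := by
        rw [← hεμ]
        ring
      have h13 : 0 ≤ (c - μ) * Real.log n := by
        apply mul_nonneg (by linarith)
        linarith
      linarith
  have hfin2 : {n : ℕ | 1 ≤ n ∧ (n : ℝ) ≤ x ∧ ¬ Pool.Agent.H828R3.Exc.Pr ε (x ^ η) (x ^ 2) n}.Finite := by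
    apply (Set.finite_Icc 1 ⌊x⌋₊).subset
    rintro n ⟨h1, h2, _⟩
    exact ⟨h1, Nat.le_floor h2⟩
  have hcount := (Set.ncard_le_ncard hsub ((Set.finite_Iic _).union hfin2)).trans
    (Set.ncard_union_le _ _)
  have hcount' : ((Slo C c η x).ncard : ℝ) ≤
      ((Set.Iic ⌊x ^ (1 / 2 : ℝ)⌋₊).ncard : ℝ) +
      ({n : ℕ | 1 ≤ n ∧ (n : ℝ) ≤ x ∧ ¬ Pool.Agent.H828R3.Exc.Pr ε (x ^ η) (x ^ 2) n}.ncard : ℝ) := by
    exact_mod_cast hcount
  have hI : ((Set.Iic ⌊x ^ (1 / 2 : ℝ)⌋₊).ncard : ℝ) ≤ x ^ (1 / 2 : ℝ) + 1 := by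
    rw [← Finset.coe_Iic, Set.ncard_coe_finset, Nat.card_Iic]
    push_cast
    have := Nat.floor_le (Real.rpow_nonneg hx0.le (1 / 2 : ℝ))
    linarith
  have hyc : x / (x ^ η) ^ c1 ≤ x ^ (1 - 4 * δ) := by
    rw [← Real.rpow_mul hx0.le]
    nth_rewrite 1 [← Real.rpow_one x]
    rw [← Real.rpow_sub hx0]
    apply Real.rpow_le_rpow_of_exponent_le (by linarith)
    nlinarith
  have h1x : x ^ 2 / x ^ 2 ≤ x ^ (1 - 4 * δ) := by
    rw [div_self (by positivity)]
    exact Real.one_le_rpow (by linarith) (by linarith)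
  have hlast : C1 * (Real.log x) ^ 4 * (x / (x ^ η) ^ c1 + x ^ 2 / x ^ 2) ≤
      2 * (C1 * (Real.log x) ^ 4 * x ^ (1 - 4 * δ)) := by
    have h0 : 0 ≤ C1 * (Real.log x) ^ 4 := by positivity
    calc C1 * (Real.log x) ^ 4 * (x / (x ^ η) ^ c1 + x ^ 2 / x ^ 2)
        ≤ C1 * (Real.log x) ^ 4 * (x ^ (1 - 4 * δ) + x ^ (1 - 4 * δ)) :=
          mul_le_mul_of_nonneg_left (by linarith) h0
      _ = _ := by ring
  linarith

end Pool.Agent.X140.C3
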